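import Mathlib
import Pool.Agent.Lib.MP_d56194_co.F.F4

set_option autoImplicit false

namespace Pool.MP_d56194_co

open Finset

/-- A real solution with all the structural information: `L i x t` is the part of the cell
`(i, x)` of the diagram `D` which has the time `t`. -/
structure Sol (m N M q : ℕ) (D : ℕ → ℕ → Prop) (s : ℕ → ℕ) (L : ℕ → ℕ → ℕ → ℝ) : Prop where
  down : ∀ i i' x x', i ≤ i' → x ≤ x' → D i' x' → D i x
  inside : ∀ i x, D i x → i < m ∧ x < N
  nonneg : ∀ i x t, 0 ≤ L i x t
  supp : ∀ i x t, 0 < L i x t → D i x ∧ t < M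
  cell : ∀ i x, D i x → ∑ t ∈ range M, L i x t = q
  row_le : ∀ i t, ∑ x ∈ range N, L i x t ≤ 1
  col_le : ∀ x t, ∑ i ∈ range m, L i x t ≤ 1
  row_anti : ∀ i t t', t ≤ t' → ∑ x ∈ range N, L i x t' ≤ ∑ x ∈ range N, L i x t
  col_anti : ∀ x t t', t ≤ t' → ∑ i ∈ range m, L i x t' ≤ ∑ i ∈ range m, L i x t
  row_pref : ∀ i i' c, i ≤ i' →
    ∑ t ∈ range c, ∑ x ∈ range N, L i' x t ≤ ∑ t ∈ range c, ∑ x ∈ range N, L i x t
  col_pref : ∀ x x' c, x ≤ x' →
    ∑ t ∈ range c, ∑ i ∈ range m, L i x' t ≤ ∑ t ∈ range c, ∑ i ∈ range m, L i x t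
  tot : ∀ t, t < M → ∑ i ∈ range m, ∑ x ∈ range N, L i x t = s t
  f1 : ∀ i x x' t t', x < x' → t < t' → 0 < L i x t → 0 < L i x' t' →
    0 < L i x' t ∧ 0 < L i x t'
  f2 : ∀ i i' x t t', i < i' → t < t' → 0 < L i x t → 0 < L i' x t' →
    0 < L i' x t ∧ 0 < L i x t'
  f3 : ∀ i i' x x' t, i < i' → x < x' → 0 < L i x t → 0 < L i' x' t →
    0 < L i' x t ∧ 0 < L i x' t
  r8 : ∀ i j x t t', i < j → t < t' → 0 < L i x t' → 0 < L j x t →
    ∑ y ∈ range N, L i y t < 1 → 0 < L i x t
  c8 : ∀ i x y t t', x < y → t < t' → 0 < L i x t' → 0 < L i y t →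
    ∑ j ∈ range m, L j x t < 1 → 0 < L i x t

/-- prefix sums are nonincreasing -/
theorem pref23 (M : ℕ) (d : Dat) (hg : Good M d) (L : V3 → ℝ) (h : IsMaxN M d L) (a c : ℕ)
    (ha : a + 1 < M) (hc : c ≤ M) :
    ∑ t ∈ range c, marg M L (a + 1) t ≤ ∑ t ∈ range c, marg M L a t := by
  have hKN := h.1
  obtain ⟨hL0, hLz, hL1, hL2, hL3, hL12, hL13, hL23⟩ := h.1
  apply delta_le M (marg M L) (marg_nonneg M d L hKN) _ _ _ a c ha hc
  · intro a b ha hb
    rw [← mass_near M L a b ha hb, ← hg.h23]
    exact hL23 a b ha hb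
  · intro a ha
    rw [← mass_21 M L (a + 1) ha, ← mass_21 M L a (by omega), hL2 _ ha, hL2 a (by omega)]
    exact hg.s2 a ha
  · intro a y y' ha hyy hy' hsl
    apply kernelN M d L h a y y' ha hyy hy'
    intro t h1 h2
    rw [mass_near M L (a + 1) t (by omega) (by omega), hg.h23]
    exact hsl t h1 h2

/-- an entry is positive if it can be made positive -/
theorem c8N (M : ℕ) (d : Dat) (hg : Good M d) (L : V3 → ℝ) (h : IsMaxN M d L)
    (p a a' t t' : ℕ) (hp : p < M) (haa : a < a') (ha' : a' < M) (htt : t < t') (ht' : t' < M)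
    (h1 : 0 < L (p, a, t')) (h2 : 0 < L (p, a', t)) (hC : marg M L a t < 1) :
    0 < L (p, a, t) := by
  have hL0 := h.1.1
  have key : L (p, a, t') * L (p, a', t) ≤ L (p, a, t) * L (p, a', t') := by
    apply pertN M d L h (p, a, t) (p, a', t') (p, a, t') (p, a', t)
    any_goals (rw [mem_Box]; refine ⟨?_, ?_, ?_⟩ <;> simp only <;> omega)
    any_goals (simp only [ne_eq, Prod.mk.injEq, not_and]; omega)
    · intro q; simp only [chg]; ring
    · intro q; simp only [chg]; ring
    · intro q; simp only [chg]; ring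
    · intro α β _ _; left; simp only [chg]; split_ifs <;> first | (exfalso; omega) | norm_num
    · intro α β _ _; left; simp only [chg]; split_ifs <;> first | (exfalso; omega) | norm_num
    · intro α β hα hβ
      by_cases hc : a < α ∧ α ≤ a' ∧ t < β ∧ β ≤ t'
      · right
        obtain ⟨c1, c2, c3, c4⟩ := hc
        rw [mass_near M L α β hα hβ, hg.h23]
        have e1 : (α : ℝ) * β = ∑ _x ∈ range α, (β : ℝ) := by
          rw [Finset.sum_const, Finset.card_range, nsmul_eq_mul]
        rw [e1]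
        apply Finset.sum_lt_sum
        · intro x hx
          rw [Finset.mem_range] at hx
          exact sat23 M d hg L h x β (by omega) hβ
        · refine ⟨a, Finset.mem_range.mpr c1, ?_⟩
          have e2 : (β : ℝ) = ∑ _y ∈ range β, (1 : ℝ) := by
            rw [Finset.sum_const, Finset.card_range, nsmul_eq_mul, mul_one]
          rw [e2]
          apply Finset.sum_lt_sum
          · intro y hy
            rw [Finset.mem_range] at hy
            exact boundC M d hg L h y (by omega) a (by omega)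
          · exact ⟨t, Finset.mem_range.mpr c3, hC⟩
      · left; simp only [chg]; split_ifs <;> first | (exfalso; omega) | norm_num
  have h3 : 0 < L (p, a, t') * L (p, a', t) := mul_pos h1 h2
  rcases (hL0 (p, a, t)).eq_or_lt with h4 | h4
  · rw [← h4, zero_mul] at key
    exact absurd key (not_le.mpr h3)
  · exact h4

theorem pos_of_le_mul (a b c d : ℝ) (ha : 0 ≤ a) (hb : 0 ≤ b) (hc : 0 < c) (hd : 0 < d)
    (h : c * d ≤ a * b) : 0 < a ∧ 0 < b := by
  have h1 : 0 < c * d := mul_pos hc hd
  constructor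
  · rcases ha.eq_or_lt with h2 | h2
    · rw [← h2, zero_mul] at h
      linarith
    · exact h2
  · rcases hb.eq_or_lt with h2 | h2
    · rw [← h2, mul_zero] at h
      linarith
    · exact h2

/-- The structure of a maximiser of the entropy. -/
theorem sol_of_max (m N M q : ℕ) (lam : ℕ → ℕ) (hanti : Antitone lam)
    (hm : ∀ i, m ≤ i → lam i = 0) (hN : ∀ i, lam i ≤ N) (hmM : m ≤ M) (hNM : N ≤ M)
    (s : ℕ → ℕ) (d : Dat) (hg : Good M d)
    (hS3 : ∀ t, t < M → d.S3 t = s t)
    (hA12 : ∀ (L : V3 → ℝ), IsMaxN M d L → ∀ i x, i < M → x < M →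
      marg M (fun v => L (rotN v)) i x = (q : ℝ) * if x < lam i then 1 else 0)
    (L : V3 → ℝ) (hL : IsMaxN M d L) :
    Sol m N M q (fun i x => x < lam i) s (fun i x t => L (i, x, t)) := by
  classical
  have hL0 := hL.1.1
  have hLz := hL.1.2.1
  have hout : ∀ i x t, ¬ (i < M ∧ x < M ∧ t < M) → L (i, x, t) = 0 := by
    intro i x t h
    apply hLz
    rw [mem_Box]
    exact h
  have hzero : ∀ i x t, lam i ≤ x → L (i, x, t) = 0 := by
    intro i x t hlx
    by_cases hb : i < M ∧ x < M ∧ t < M
    · obtain ⟨hi, hx, ht⟩ := hb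
      have h1 := hA12 L hL i x hi hx
      rw [if_neg (by omega), mul_zero] at h1
      unfold marg at h1
      have h2 := (Finset.sum_eq_zero_iff_of_nonneg (fun p _ => hL0 _)).mp h1
      exact h2 t (Finset.mem_range.mpr ht)
    · exact hout i x t hb
  have hrow : ∀ i t, ∑ x ∈ range N, L (i, x, t) = marg M (fun v => L (swN v)) i t := by
    intro i t
    unfold marg
    simp only [swN]
    apply Finset.sum_subset (Finset.range_subset_range.mpr hNM)
    intro x _ hx
    rw [Finset.mem_range] at hx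
    exact hzero i x t (by have := hN i; omega)
  have hcol : ∀ x t, ∑ i ∈ range m, L (i, x, t) = marg M L x t := by
    intro x t
    unfold marg
    apply Finset.sum_subset (Finset.range_subset_range.mpr hmM)
    intro i _ hi
    rw [Finset.mem_range] at hi
    exact hzero i x t (by rw [hm i (by omega)]; exact Nat.zero_le _)
  have hrow0 : ∀ i t, ¬ (i < M ∧ t < M) → ∑ x ∈ range N, L (i, x, t) = 0 := by
    intro i t h
    apply Finset.sum_eq_zero
    intro x _
    apply hout
    tauto
  have hcol0 : ∀ x t, ¬ (x < M ∧ t < M) → ∑ i ∈ range m, L (i, x, t) = 0 := by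
    intro x t h
    apply Finset.sum_eq_zero
    intro i _
    apply hout
    tauto
  have hrownn : ∀ i t, 0 ≤ ∑ x ∈ range N, L (i, x, t) := fun i t =>
    Finset.sum_nonneg (fun _ _ => hL0 _)
  have hcolnn : ∀ x t, 0 ≤ ∑ i ∈ range m, L (i, x, t) := fun i t =>
    Finset.sum_nonneg (fun _ _ => hL0 _)
  have hin : ∀ i x t, 0 < L (i, x, t) → i < M ∧ x < M ∧ t < M := by
    intro i x t h
    by_contra hcon
    rw [hout i x t hcon] at h
    exact lt_irrefl _ h
  have hsw := IsMaxN_sw M d L hL
  have hrot := IsMaxN_rot M d L hL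
  refine
    { down := ?_, inside := ?_, nonneg := fun i x t => hL0 _, supp := ?_, cell := ?_,
      row_le := ?_, col_le := ?_, row_anti := ?_, col_anti := ?_, row_pref := ?_,
      col_pref := ?_, tot := ?_, f1 := ?_, f2 := ?_, f3 := ?_, r8 := ?_, c8 := ?_ }
  · intro i i' x x' hi hx h
    have := hanti hi
    omega
  · intro i x h
    constructor
    · by_contra hcon
      rw [hm i (by omega)] at h
      omega
    · have := hN i
      omega
  · intro i x t h
    refine ⟨?_, (hin i x t h).2.2⟩
    by_contra hcon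
    rw [hzero i x t (by omega)] at h
    exact lt_irrefl _ h
  · intro i x h
    have hi : i < M := by
      by_contra hcon
      rw [hm i (by omega)] at h
      omega
    have hx : x < M := by have := hN i; omega
    have h1 := hA12 L hL i x hi hx
    rw [if_pos h, mul_one] at h1
    simpa [marg, rotN] using h1
  · intro i t
    by_cases hb : i < M ∧ t < M
    · rw [hrow]
      exact boundB M d hg L hL t hb.2 i hb.1
    · rw [hrow0 i t hb]
      exact zero_le_one
  · intro x t
    by_cases hb : x < M ∧ t < M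
    · rw [hcol]
      exact boundC M d hg L hL t hb.2 x hb.1
    · rw [hcol0 x t hb]
      exact zero_le_one
  · intro i
    apply antitone_nat_of_succ_le
    intro t
    by_cases hb : i < M ∧ t + 1 < M
    · rw [hrow, hrow]
      exact pointB M d hg L hL t hb.2 i hb.1
    · rw [hrow0 i (t + 1) hb]
      exact hrownn i t
  · intro x
    apply antitone_nat_of_succ_le
    intro t
    by_cases hb : x < M ∧ t + 1 < M
    · rw [hcol, hcol]
      exact pointB M d.sw hg.sw _ hsw t hb.2 x hb.1
    · rw [hcol0 x (t + 1) hb]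
      exact hcolnn x t
  · intro i i' c hii
    have hmin : ∀ j, ∑ t ∈ range c, ∑ x ∈ range N, L (j, x, t) =
        ∑ t ∈ range (min c M), ∑ x ∈ range N, L (j, x, t) := by
      intro j
      symm
      apply Finset.sum_subset (Finset.range_subset_range.mpr (min_le_left _ _))
      intro t ht ht'
      rw [Finset.mem_range] at ht ht'
      exact hrow0 j t (by omega)
    have hanti2 : Antitone (fun j => ∑ t ∈ range c, ∑ x ∈ range N, L (j, x, t)) := by
      apply antitone_nat_of_succ_le
      intro j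
      by_cases hj : j + 1 < M
      · rw [hmin, hmin, Finset.sum_congr rfl (fun t _ => hrow (j + 1) t),
          Finset.sum_congr rfl (fun t _ => hrow j t)]
        exact pref23 M d.sw hg.sw _ hsw j (min c M) hj (min_le_right _ _)
      · rw [Finset.sum_eq_zero (fun t _ => hrow0 (j + 1) t (by omega))]
        exact Finset.sum_nonneg (fun t _ => hrownn j t)
    exact hanti2 hii
  · intro i i' c hii
    have hmin : ∀ j, ∑ t ∈ range c, ∑ x ∈ range m, L (x, j, t) =
        ∑ t ∈ range (min c M), ∑ x ∈ range m, L (x, j, t) := by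
      intro j
      symm
      apply Finset.sum_subset (Finset.range_subset_range.mpr (min_le_left _ _))
      intro t ht ht'
      rw [Finset.mem_range] at ht ht'
      exact hcol0 j t (by omega)
    have hanti2 : Antitone (fun j => ∑ t ∈ range c, ∑ x ∈ range m, L (x, j, t)) := by
      apply antitone_nat_of_succ_le
      intro j
      by_cases hj : j + 1 < M
      · rw [hmin, hmin, Finset.sum_congr rfl (fun t _ => hcol (j + 1) t),
          Finset.sum_congr rfl (fun t _ => hcol j t)]
        exact pref23 M d hg L hL j (min c M) hj (min_le_right _ _)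
      · rw [Finset.sum_eq_zero (fun t _ => hcol0 (j + 1) t (by omega))]
        exact Finset.sum_nonneg (fun t _ => hcolnn j t)
    exact hanti2 hii
  · intro t ht
    have h1 := hL.1.2.2.2.2.1 t ht
    rw [mass_22 M L t ht, hS3 t ht] at h1
    rw [← h1, Finset.sum_comm]
    rw [Finset.sum_congr rfl (fun x _ => hcol x t)]
    apply Finset.sum_subset (Finset.range_subset_range.mpr hNM)
    intro x _ hx
    rw [Finset.mem_range] at hx
    rw [← hcol]
    apply Finset.sum_eq_zero
    intro i _
    exact hzero i x t (by have := hN i; omega)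
  · intro i x x' t t' hx ht h1 h2
    obtain ⟨b1, b2, b3⟩ := hin _ _ _ h2
    have h3 := pt_always M d L hL i x x' t t' b1 hx b2 ht b3
    exact pos_of_le_mul _ _ _ _ (hL0 _) (hL0 _) h2 h1 h3
  · intro i i' x t t' hi ht h1 h2
    obtain ⟨b1, b2, b3⟩ := hin _ _ _ h2
    have h3 := pt_always M _ _ hsw x i i' t t' b2 hi b1 ht b3
    exact pos_of_le_mul _ _ _ _ (hL0 _) (hL0 _) h2 h1 h3
  · intro i i' x x' t hi hx h1 h2
    obtain ⟨b1, b2, b3⟩ := hin _ _ _ h2
    have h3 := pt_always M _ _ hrot t i i' x x' b3 hi b1 hx b2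
    exact pos_of_le_mul _ _ _ _ (hL0 _) (hL0 _) h2 h1 h3
  · intro i j x t t' hij ht h1 h2 h3
    obtain ⟨b1, b2, b3⟩ := hin _ _ _ h1
    obtain ⟨b4, b5, b6⟩ := hin _ _ _ h2
    rw [hrow] at h3
    exact c8N M d.sw hg.sw _ hsw x i j t t' b2 hij b4 ht b3 h1 h2 h3
  · intro i x y t t' hxy ht h1 h2 h3
    obtain ⟨b1, b2, b3⟩ := hin _ _ _ h1
    obtain ⟨b4, b5, b6⟩ := hin _ _ _ h2
    rw [hcol] at h3
    exact c8N M d hg L hL i x y t t' b1 hxy b5 ht b3 h1 h2 h3

end Pool.MP_d56194_co
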