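import Mathlib
import Pool.Agent.Lib.MP_d56194_co.I.I1

set_option autoImplicit false

namespace Pool.MP_d56194_co

open Finset

variable {m N M q : ℕ} {D : ℕ → ℕ → Prop} {s : ℕ → ℕ} {L : ℕ → ℕ → ℕ → ℝ}

theorem Sol.swap (h : Sol m N M q D s L) :
    Sol N m M q (fun x i => D i x) s (fun x i t => L i x t) where
  down := fun i i' x x' hi hx hd => h.down x x' i i' hx hi hd
  inside := fun i x hd => ⟨(h.inside x i hd).2, (h.inside x i hd).1⟩
  nonneg := fun i x t => h.nonneg x i t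
  supp := fun i x t hp => h.supp x i t hp
  cell := fun i x hd => h.cell x i hd
  row_le := h.col_le
  col_le := h.row_le
  row_anti := h.col_anti
  col_anti := h.row_anti
  row_pref := h.col_pref
  col_pref := h.row_pref
  tot := by
    intro t ht
    rw [Finset.sum_comm]
    exact h.tot t ht
  f1 := fun i x x' t t' hx ht h1 h2 => h.f2 x x' i t t' hx ht h1 h2
  f2 := fun i i' x t t' hi ht h1 h2 => h.f1 x i i' t t' hi ht h1 h2
  f3 := fun i i' x x' t hi hx h1 h2 => ⟨(h.f3 x x' i i' t hx hi h1 h2).2,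
    (h.f3 x x' i i' t hx hi h1 h2).1⟩
  r8 := fun i j x t t' hij ht h1 h2 h3 => h.c8 x i j t t' hij ht h1 h2 h3
  c8 := fun i x y t t' hxy ht h1 h2 h3 => h.r8 x y i t t' hxy ht h1 h2 h3

/-- a positive entry of a cell of the diagram -/
theorem Sol.exists_pos (h : Sol m N M q D s L) (hq : 0 < q) (i x : ℕ) (hd : D i x) :
    ∃ t, 0 < L i x t := by
  by_contra hcon
  push Not at hcon
  have h1 := h.cell i x hd
  rw [Finset.sum_eq_zero (fun t _ => le_antisymm (hcon t) (h.nonneg i x t))] at h1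
  have h2 : (0 : ℝ) < q := by exact_mod_cast hq
  linarith

/-- a positive entry of a column which is not empty at the time `t` -/
theorem Sol.exists_col (h : Sol m N M q D s L) (j x t t' : ℕ) (htt : t ≤ t')
    (hp : 0 < L j x t') : ∃ i, 0 < L i x t := by
  by_contra hcon
  push Not at hcon
  have h1 := h.col_anti x t t' htt
  rw [Finset.sum_eq_zero (fun i _ => le_antisymm (hcon i) (h.nonneg i x t))] at h1
  have h2 := (h.inside j x (h.supp j x t' hp).1).1
  have h3 : L j x t' ≤ ∑ i ∈ range m, L i x t' :=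
    Finset.single_le_sum (f := fun i => L i x t') (fun i _ => h.nonneg i x t')
      (Finset.mem_range.mpr h2)
  linarith

/-- The support contains all corners of a box if it contains the lowest and the highest one. -/
theorem Sol.corners (h : Sol m N M q D s L) (hq : 0 < q) (i i' x x' t t' : ℕ) (hi : i < i')
    (hx : x < x') (ht : t < t') (h1 : 0 < L i x t) (h2 : 0 < L i' x' t') :
    0 < L i' x t ∧ 0 < L i x' t ∧ 0 < L i x t' ∧ 0 < L i' x' t ∧ 0 < L i' x t' ∧
      0 < L i x' t' := by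
  have hD2 := (h.supp i' x' t' h2).1
  have k1 : 0 < L i x t' := by
    by_contra hz
    have hα : ∀ j, i < j → ¬ 0 < L j x t' := fun j hj hp => hz (h.f2 i j x t t' hj ht h1 hp).2
    have hD3 : D i' x := h.down i' i' x x' le_rfl hx.le hD2
    obtain ⟨t'', h3⟩ := h.exists_pos hq i' x hD3
    rcases lt_trichotomy t'' t' with h4 | h4 | h4
    · exact hα i' hi (h.f1 i' x x' t'' t' hx h4 h3 h2).2
    · subst h4
      exact hα i' hi h3
    · have h5 := (h.f2 i i' x t t'' hi (lt_trans ht h4) h1 h3).2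
      obtain ⟨j, h6⟩ := h.exists_col i x t' t'' h4.le h5
      rcases lt_trichotomy j i with h7 | h7 | h7
      · exact hz (h.f2 j i x t' t'' h7 h4 h6 h5).1
      · subst h7
        exact hz h6
      · exact hα j h7 h6
  obtain ⟨k2, k3⟩ := h.f3 i i' x x' t' hi hx k1 h2
  have k4 := (h.f2 i i' x t t' hi ht h1 k2).1
  have k5 := (h.f1 i x x' t t' hx ht h1 k3).1
  have k6 := (h.f2 i i' x' t t' hi ht k5 h2).1
  exact ⟨k4, k5, k1, k6, k2, k3⟩

/-- the rows behind a row which is not full are not full -/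
theorem Sol.slack_row (h : Sol m N M q D s L) (i i' t t' : ℕ) (hi : i ≤ i') (ht : t ≤ t')
    (h1 : ∑ x ∈ range N, L i x t < 1) : ∑ x ∈ range N, L i' x t' < 1 := by
  refine lt_of_le_of_lt (h.row_anti i' t t' ht) ?_
  by_contra hcon
  push Not at hcon
  have h2 := h.row_pref i i' (t + 1) hi
  have h3 : ((t + 1 : ℕ) : ℝ) ≤ ∑ τ ∈ range (t + 1), ∑ x ∈ range N, L i' x τ := by
    have h4 : ((t + 1 : ℕ) : ℝ) = ∑ _τ ∈ range (t + 1), (1 : ℝ) := by
      rw [Finset.sum_const, Finset.card_range, nsmul_eq_mul, mul_one]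
    rw [h4]
    apply Finset.sum_le_sum
    intro τ hτ
    rw [Finset.mem_range] at hτ
    exact hcon.trans (h.row_anti i' τ t (by omega))
  have h5 : ∑ τ ∈ range (t + 1), ∑ x ∈ range N, L i x τ < ((t + 1 : ℕ) : ℝ) := by
    have h4 : ((t + 1 : ℕ) : ℝ) = ∑ _τ ∈ range (t + 1), (1 : ℝ) := by
      rw [Finset.sum_const, Finset.card_range, nsmul_eq_mul, mul_one]
    rw [h4]
    apply Finset.sum_lt_sum
    · intro τ _
      exact h.row_le i τ
    · exact ⟨t, Finset.mem_range.mpr (by omega), h1⟩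
  linarith

/-- If a row is not full at the time `t`, then its cells in the columns used by later rows at
the same time or later are used. -/
theorem Sol.row_key (h : Sol m N M q D s L) (hq : 0 < q) (i i' x' t t' : ℕ) (hi : i < i')
    (ht : t ≤ t') (h1 : ∑ x ∈ range N, L i x t < 1) (h2 : 0 < L i' x' t') :
    0 < L i x' t := by
  by_contra hz
  have hD2 := (h.supp i' x' t' h2).1
  have hD3 : D i x' := h.down i i' x' x' hi.le le_rfl hD2
  obtain ⟨t'', h3⟩ := h.exists_pos hq i x' hD3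
  obtain ⟨j, h6⟩ := h.exists_col i' x' t t' ht h2
  rcases lt_trichotomy t'' t with h4 | h4 | h4
  · have h5 := (h.f2 i i' x' t'' t' hi (by omega) h3 h2).2
    rcases lt_trichotomy j i with h7 | h7 | h7
    · rcases ht.eq_or_lt with h8 | h8
      · subst h8
        exact hz h5
      · exact hz (h.f2 j i x' t t' h7 h8 h6 h5).1
    · subst h7
      exact hz h6
    · exact hz (h.f2 i j x' t'' t h7 h4 h3 h6).2
  · subst h4
    exact hz h3
  · rcases lt_trichotomy j i with h7 | h7 | h7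
    · exact hz (h.f2 j i x' t t'' h7 h4 h6 h3).1
    · subst h7
      exact hz h6
    · exact hz (h.r8 i j x' t t'' h7 h4 h3 h6 h1)

/-- The table with the slack entries of the rows (in column `0`) and of the columns (in
row `0`). -/
noncomputable def Ext (m N M : ℕ) (L : ℕ → ℕ → ℕ → ℝ) : ℕ → ℕ → ℕ → ℝ
  | 0, 0, _ => 0
  | i + 1, 0, t => if i < m ∧ t < M then 1 - ∑ x ∈ range N, L i x t else 0
  | 0, x + 1, t => if x < N ∧ t < M then 1 - ∑ i ∈ range m, L i x t else 0
  | i + 1, x + 1, t => L i x t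

theorem Ext_row (i t : ℕ) : Ext m N M L (i + 1) 0 t =
    if i < m ∧ t < M then 1 - ∑ x ∈ range N, L i x t else 0 := rfl

theorem Ext_col (x t : ℕ) : Ext m N M L 0 (x + 1) t =
    if x < N ∧ t < M then 1 - ∑ i ∈ range m, L i x t else 0 := rfl

theorem Ext_reg (i x t : ℕ) : Ext m N M L (i + 1) (x + 1) t = L i x t := rfl

theorem Ext_zero (t : ℕ) : Ext m N M L 0 0 t = 0 := rfl

theorem Ext_swap (i x t : ℕ) :
    Ext N m M (fun x i t => L i x t) x i t = Ext m N M L i x t := by
  rcases i with _ | i <;> rcases x with _ | x <;> rfl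

theorem Sol.ext_nonneg (h : Sol m N M q D s L) (i x t : ℕ) : 0 ≤ Ext m N M L i x t := by
  rcases i with _ | i <;> rcases x with _ | x
  · exact le_rfl
  · rw [Ext_col]
    split_ifs
    · have := h.col_le x t
      linarith
    · exact le_rfl
  · rw [Ext_row]
    split_ifs
    · have := h.row_le i t
      linarith
    · exact le_rfl
  · exact h.nonneg i x t

theorem ext_row_pos (i t : ℕ) (h1 : 0 < Ext m N M L (i + 1) 0 t) :
    i < m ∧ t < M ∧ ∑ x ∈ range N, L i x t < 1 := by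
  rw [Ext_row] at h1
  split_ifs at h1 with h2
  · exact ⟨h2.1, h2.2, by linarith⟩
  · exact absurd h1 (lt_irrefl _)

theorem ext_row_pos' (i t : ℕ) (hi : i < m) (ht : t < M) (h1 : ∑ x ∈ range N, L i x t < 1) :
    0 < Ext m N M L (i + 1) 0 t := by
  rw [Ext_row, if_pos ⟨hi, ht⟩]
  linarith

theorem Sol.cc_row (h : Sol m N M q D s L) (hq : 0 < q) (i i' x' t t' : ℕ) (hi : i < i')
    (ht : t ≤ t') (h1 : 0 < Ext m N M L (i + 1) 0 t)
    (h2 : 0 < L i' x' t') : 0 < Ext m N M L (i' + 1) 0 t ∧ 0 < L i x' t ∧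
      0 < Ext m N M L (i + 1) 0 t' ∧ 0 < L i' x' t ∧ 0 < Ext m N M L (i' + 1) 0 t' ∧
      0 < L i x' t' := by
  obtain ⟨b1, b2, b3⟩ := ext_row_pos i t h1
  obtain ⟨d1, d2⟩ := h.supp i' x' t' h2
  have d3 := (h.inside i' x' d1).1
  have k2 := h.row_key hq i i' x' t t' hi ht b3 h2
  have k3 : 0 < L i' x' t ∧ 0 < L i x' t' := by
    rcases ht.eq_or_lt with h8 | h8
    · subst h8
      exact ⟨h2, k2⟩
    · exact h.f2 i i' x' t t' hi h8 k2 h2
  exact ⟨ext_row_pos' i' t d3 b2 (h.slack_row i i' t t hi.le le_rfl b3), k2,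
    ext_row_pos' i t' b1 d2 (h.slack_row i i t t' le_rfl ht b3), k3.1,
    ext_row_pos' i' t' d3 d2 (h.slack_row i i' t t' hi.le ht b3), k3.2⟩

/-- all corners, for the table with the slack entries -/
theorem Sol.ext_corners (h : Sol m N M q D s L) (hq : 0 < q) (i i' x x' t t' : ℕ) (hi : i < i')
    (hx : x < x') (ht : t < t') (h1 : 0 < Ext m N M L i x t) (h2 : 0 < Ext m N M L i' x' t') :
    0 < Ext m N M L i' x t ∧ 0 < Ext m N M L i x' t ∧ 0 < Ext m N M L i x t' ∧
      0 < Ext m N M L i' x' t ∧ 0 < Ext m N M L i' x t' ∧ 0 < Ext m N M L i x' t' := by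
  obtain ⟨i', rfl⟩ : ∃ j, i' = j + 1 := ⟨i' - 1, by omega⟩
  obtain ⟨x', rfl⟩ : ∃ j, x' = j + 1 := ⟨x' - 1, by omega⟩
  rcases i with _ | i <;> rcases x with _ | x
  · exact absurd h1 (lt_irrefl _)
  · have h1' : 0 < Ext N m M (fun x i t => L i x t) (x + 1) 0 t := by
      rw [Ext_swap]
      exact h1
    obtain ⟨k1, k2, k3, k4, k5, k6⟩ := h.swap.cc_row hq x x' i' t t' (by omega) ht.le h1' h2
    rw [Ext_swap] at k1 k3 k5
    exact ⟨k2, k1, k3, k4, k6, k5⟩
  · exact h.cc_row hq i i' x' t t' (by omega) ht.le h1 h2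
  · exact h.corners hq i i' x x' t t' (by omega) (by omega) ht h1 h2

theorem Sol.ext_corners2 (h : Sol m N M q D s L) (hq : 0 < q) (i i' x x' t : ℕ) (hi : i < i')
    (hx : x < x') (h1 : 0 < Ext m N M L i x t) (h2 : 0 < Ext m N M L i' x' t) :
    0 < Ext m N M L i' x t ∧ 0 < Ext m N M L i x' t := by
  obtain ⟨i', rfl⟩ : ∃ j, i' = j + 1 := ⟨i' - 1, by omega⟩
  obtain ⟨x', rfl⟩ : ∃ j, x' = j + 1 := ⟨x' - 1, by omega⟩
  rcases i with _ | i <;> rcases x with _ | x
  · exact absurd h1 (lt_irrefl _)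
  · have h1' : 0 < Ext N m M (fun x i t => L i x t) (x + 1) 0 t := by
      rw [Ext_swap]
      exact h1
    obtain ⟨k1, k2, k3, k4, k5, k6⟩ := h.swap.cc_row hq x x' i' t t (by omega) le_rfl h1' h2
    rw [Ext_swap] at k1
    exact ⟨k2, k1⟩
  · obtain ⟨k1, k2, _⟩ := h.cc_row hq i i' x' t t (by omega) le_rfl h1 h2
    exact ⟨k1, k2⟩
  · exact h.f3 i i' x x' t (by omega) (by omega) h1 h2

end Pool.MP_d56194_co
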