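import Mathlib

set_option autoImplicit false

namespace Pool.MP_d56194_co

open Finset

/-- the group of the integers in the reals -/
def ZG : AddSubgroup ℝ := (Int.castAddHom ℝ).range

theorem mem_ZG (r : ℝ) : r ∈ ZG ↔ ∃ k : ℤ, (k : ℝ) = r := by
  unfold ZG
  rw [AddMonoidHom.mem_range]
  rfl

/-- difference of two indicators -/
noncomputable def fd (p p' x : ℕ) : ℝ := (if x = p then 1 else 0) - (if x = p' then 1 else 0)

theorem fd_ne (p p' x : ℕ) (h : fd p p' x ≠ 0) : x = p ∨ x = p' := by
  by_contra hcon
  push Not at hcon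
  apply h
  unfold fd
  rw [if_neg hcon.1, if_neg hcon.2, sub_self]

theorem fd_self (p p' : ℕ) (h : p < p') : fd p p' p = 1 := by
  unfold fd
  rw [if_pos rfl, if_neg (by omega), sub_zero]

theorem fd_abs (p p' x : ℕ) : |fd p p' x| ≤ 1 := by
  unfold fd
  split_ifs <;> norm_num

theorem fd_sum (p p' T : ℕ) (h : p < T) (h' : p' < T) : ∑ x ∈ range T, fd p p' x = 0 := by
  unfold fd
  rw [Finset.sum_sub_distrib, Finset.sum_ite_eq', Finset.sum_ite_eq',
    if_pos (Finset.mem_range.mpr h), if_pos (Finset.mem_range.mpr h'), sub_self]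

/-- Rounding of a three dimensional table with integral line sums and a support which
contains, with the lowest and the highest corner of a box, all corners of the box. -/
theorem round3_aux (I J T : ℕ) (C : Finset (ℕ × ℕ × ℕ))
    (hCb : ∀ v ∈ C, v.1 < I ∧ v.2.1 < J ∧ v.2.2 < T)
    (hC : ∀ a a' b b' c c' : ℕ, a < a' → b < b' → c < c' → (a, b, c) ∈ C → (a', b', c') ∈ C →
      (a', b, c) ∈ C ∧ (a, b', c) ∈ C ∧ (a, b, c') ∈ C ∧ (a', b', c) ∈ C ∧
        (a', b, c') ∈ C ∧ (a, b', c') ∈ C) (n : ℕ) :
    ∀ (R : Finset (ℕ × ℕ × ℕ)), R ⊆ C → R.card ≤ n →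
      (∀ v ∈ R, ∀ u ∈ C, v.1 ≤ u.1 → v.2.1 ≤ u.2.1 → v.2.2 ≤ u.2.2 → u ∈ R) →
      ∀ X : ℕ × ℕ × ℕ → ℝ, (∀ v, v ∉ C → X v = 0) →
        (∀ a b, ∑ c ∈ range T, X (a, b, c) ∈ ZG) → (∀ a c, ∑ b ∈ range J, X (a, b, c) ∈ ZG) →
        (∀ b c, ∑ a ∈ range I, X (a, b, c) ∈ ZG) → (∀ v ∈ C, v ∉ R → X v ∈ ZG) →
        ∃ Z : ℕ × ℕ × ℕ → ℤ, (∀ v, v ∉ C → Z v = 0) ∧
          (∀ a b, ∑ c ∈ range T, (Z (a, b, c) : ℝ) = ∑ c ∈ range T, X (a, b, c)) ∧
          (∀ a c, ∑ b ∈ range J, (Z (a, b, c) : ℝ) = ∑ b ∈ range J, X (a, b, c)) ∧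
          (∀ b c, ∑ a ∈ range I, (Z (a, b, c) : ℝ) = ∑ a ∈ range I, X (a, b, c)) ∧
          ∀ v, |(Z v : ℝ) - X v| ≤ n := by
  classical
  induction n with
  | zero =>
    intro R hRC hRn _ X hX0 _ _ _ hXR
    have hR : R = ∅ := Finset.card_eq_zero.mp (Nat.le_zero.mp hRn)
    have hall : ∀ v, ∃ k : ℤ, (k : ℝ) = X v := by
      intro v
      by_cases hv : v ∈ C
      · exact (mem_ZG _).mp (hXR v hv (by rw [hR]; exact Finset.notMem_empty v))
      · exact ⟨0, by rw [hX0 v hv]; simp⟩
    choose Z hZ using hall
    refine ⟨Z, ?_, ?_, ?_, ?_, ?_⟩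
    · intro v hv
      have h1 := hZ v
      rw [hX0 v hv] at h1
      exact_mod_cast h1
    · intro a b
      exact Finset.sum_congr rfl (fun c _ => hZ _)
    · intro a c
      exact Finset.sum_congr rfl (fun c _ => hZ _)
    · intro b c
      exact Finset.sum_congr rfl (fun c _ => hZ _)
    · intro v
      rw [hZ v, sub_self, abs_zero]
      simp
  | succ n ih =>
    intro R hRC hRn hRup X hX0 m1 m2 m3 hXR
    by_cases hne : R = ∅
    · obtain ⟨Z, z0, z1, z2, z3, z4⟩ := ih R hRC (by rw [hne]; simp) hRup X hX0 m1 m2 m3 hXR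
      refine ⟨Z, z0, z1, z2, z3, ?_⟩
      intro v
      refine le_trans (z4 v) ?_
      push_cast
      linarith
    · obtain ⟨v0, hv0, hmin⟩ := Finset.exists_min_image R (fun v => v.1 + v.2.1 + v.2.2)
        (Finset.nonempty_iff_ne_empty.mpr hne)
      obtain ⟨a, b, c⟩ := v0
      have hv0C : (a, b, c) ∈ C := hRC hv0
      obtain ⟨ba, bb, bc⟩ := hCb _ hv0C
      simp only at ba bb bc
      have hR' : R.erase (a, b, c) ⊆ C := (Finset.erase_subset _ _).trans hRC
      have hR'n : (R.erase (a, b, c)).card ≤ n := by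
        rw [Finset.card_erase_of_mem hv0]
        omega
      have hR'up : ∀ v ∈ R.erase (a, b, c), ∀ u ∈ C, v.1 ≤ u.1 → v.2.1 ≤ u.2.1 →
          v.2.2 ≤ u.2.2 → u ∈ R.erase (a, b, c) := by
        intro v hv u hu h1 h2 h3
        rw [Finset.mem_erase] at hv ⊢
        refine ⟨?_, hRup v hv.2 u hu h1 h2 h3⟩
        rintro rfl
        apply hv.1
        have h4 := hmin v hv.2
        simp only at h1 h2 h3 h4
        obtain ⟨x, y, z⟩ := v
        simp only at h1 h2 h3 h4
        have e1 : x = a := by omega
        have e2 : y = b := by omega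
        have e3 : z = c := by omega
        rw [e1, e2, e3]
      by_cases hw : ∃ a' b' c', a < a' ∧ b < b' ∧ c < c' ∧ (a', b', c') ∈ C
      · obtain ⟨a', b', c', ha, hb, hc, hwC⟩ := hw
        obtain ⟨ba', bb', bc'⟩ := hCb _ hwC
        simp only at ba' bb' bc'
        obtain ⟨k1, k2, k3, k4, k5, k6⟩ := hC a a' b b' c c' ha hb hc hv0C hwC
        set cube : ℕ × ℕ × ℕ → ℝ := fun v => fd a a' v.1 * (fd b b' v.2.1 * fd c c' v.2.2)
          with hcube
        have hcne : ∀ v, cube v ≠ 0 → (v.1 = a ∨ v.1 = a') ∧ (v.2.1 = b ∨ v.2.1 = b') ∧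
            (v.2.2 = c ∨ v.2.2 = c') := by
          intro v hv
          simp only [hcube] at hv
          have h1 := left_ne_zero_of_mul hv
          have h2 := right_ne_zero_of_mul hv
          exact ⟨fd_ne _ _ _ h1, fd_ne _ _ _ (left_ne_zero_of_mul h2),
            fd_ne _ _ _ (right_ne_zero_of_mul h2)⟩
        have hcC : ∀ v, cube v ≠ 0 → v ∈ C := by
          intro v hv
          obtain ⟨h1, h2, h3⟩ := hcne v hv
          obtain ⟨x, y, z⟩ := v
          simp only at h1 h2 h3
          rcases h1 with rfl | rfl <;> rcases h2 with rfl | rfl <;> rcases h3 with rfl | rfl <;>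
            assumption
        set X' : ℕ × ℕ × ℕ → ℝ := fun v => X v - Int.fract (X (a, b, c)) * cube v with hX'
        have g0 : ∀ v, v ∉ C → X' v = 0 := by
          intro v hv
          simp only [hX']
          have h1 : cube v = 0 := by
            by_contra hcon
            exact hv (hcC v hcon)
          rw [hX0 v hv, h1]
          ring
        have s1 : ∀ x y, ∑ z ∈ range T, X' (x, y, z) = ∑ z ∈ range T, X (x, y, z) := by
          intro x y
          simp only [hX', hcube]
          rw [Finset.sum_sub_distrib, ← Finset.mul_sum, ← Finset.mul_sum, ← Finset.mul_sum,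
            fd_sum c c' T bc bc']
          ring
        have s2 : ∀ x z, ∑ y ∈ range J, X' (x, y, z) = ∑ y ∈ range J, X (x, y, z) := by
          intro x z
          simp only [hX', hcube]
          rw [Finset.sum_sub_distrib, ← Finset.mul_sum, ← Finset.mul_sum, ← Finset.sum_mul,
            fd_sum b b' J bb bb']
          ring
        have s3 : ∀ y z, ∑ x ∈ range I, X' (x, y, z) = ∑ x ∈ range I, X (x, y, z) := by
          intro y z
          simp only [hX', hcube]
          rw [Finset.sum_sub_distrib, ← Finset.mul_sum, ← Finset.sum_mul, fd_sum a a' I ba ba']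
          ring
        have g4 : ∀ v ∈ C, v ∉ R.erase (a, b, c) → X' v ∈ ZG := by
          intro v hv hvR
          by_cases hva : v = (a, b, c)
          · subst hva
            simp only [hX', hcube]
            rw [fd_self a a' ha, fd_self b b' hb, fd_self c c' hc, mem_ZG]
            refine ⟨⌊X (a, b, c)⌋, ?_⟩
            have h1 := Int.self_sub_fract (X (a, b, c))
            rw [mul_one, mul_one, mul_one, h1]
          · have hvR' : v ∉ R := fun h => hvR (Finset.mem_erase.mpr ⟨hva, h⟩)
            have h1 : cube v = 0 := by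
              by_contra hcon
              obtain ⟨h1, h2, h3⟩ := hcne v hcon
              apply hvR'
              apply hRup _ hv0 v hv
              · simp only; omega
              · simp only; omega
              · simp only; omega
            simp only [hX']
            rw [h1, mul_zero, sub_zero]
            exact hXR v hv hvR'
        obtain ⟨Z, z0, z1, z2, z3, z4⟩ := ih (R.erase (a, b, c)) hR' hR'n hR'up X' g0
          (fun x y => by rw [s1]; exact m1 x y) (fun x z => by rw [s2]; exact m2 x z)
          (fun y z => by rw [s3]; exact m3 y z) g4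
        refine ⟨Z, z0, fun x y => (z1 x y).trans (s1 x y), fun x z => (z2 x z).trans (s2 x z),
          fun y z => (z3 y z).trans (s3 y z), ?_⟩
        intro v
        have h1 : (Z v : ℝ) - X v = ((Z v : ℝ) - X' v) + (X' v - X v) := by ring
        rw [h1]
        refine le_trans (abs_add_le _ _) ?_
        have h2 : |X' v - X v| ≤ 1 := by
          simp only [hX', hcube]
          have e1 : X v - Int.fract (X (a, b, c)) * (fd a a' v.1 * (fd b b' v.2.1 *
              fd c c' v.2.2)) - X v = - (Int.fract (X (a, b, c)) * (fd a a' v.1 *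
              (fd b b' v.2.1 * fd c c' v.2.2))) := by ring
          rw [e1, abs_neg, abs_mul, abs_mul, abs_mul,
            abs_of_nonneg (Int.fract_nonneg (X (a, b, c)))]
          have f0 := Int.fract_nonneg (X (a, b, c))
          have f1 := (Int.fract_lt_one (X (a, b, c))).le
          have p1 : |fd b b' v.2.1| * |fd c c' v.2.2| ≤ 1 :=
            mul_le_one₀ (fd_abs _ _ _) (abs_nonneg _) (fd_abs _ _ _)
          have p2 : |fd a a' v.1| * (|fd b b' v.2.1| * |fd c c' v.2.2|) ≤ 1 :=
            mul_le_one₀ (fd_abs _ _ _) (mul_nonneg (abs_nonneg _) (abs_nonneg _)) p1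
          exact mul_le_one₀ f1 (mul_nonneg (abs_nonneg _) (mul_nonneg (abs_nonneg _)
            (abs_nonneg _))) p2
        have h3 := z4 v
        push_cast
        linarith
      · -- no higher element: the entry is an integer
        push Not at hw
        have hXv : X (a, b, c) ∈ ZG := by
          have hup : ∀ x y z, a < x → b < y → c < z → X (x, y, z) = 0 := by
            intro x y z h1 h2 h3
            exact hX0 _ (hw x y z h1 h2 h3)
          -- step 1
          have t1 : ∀ x y, a < x → b < y → ∑ z ∈ range (c + 1), X (x, y, z) ∈ ZG := by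
            intro x y h1 h2
            have h3 := m1 x y
            rw [← Finset.sum_range_add_sum_Ico (fun z => X (x, y, z)) (show c + 1 ≤ T by omega)]
              at h3
            rw [Finset.sum_eq_zero (s := Ico (c + 1) T)] at h3
            · rwa [add_zero] at h3
            · intro z hz
              rw [Finset.mem_Ico] at hz
              exact hup x y z h1 h2 (by omega)
          have t2 : ∀ x, a < x → ∑ y ∈ range (b + 1), ∑ z ∈ range (c + 1), X (x, y, z) ∈ ZG := by
            intro x h1
            have h3 : ∑ z ∈ range (c + 1), ∑ y ∈ range J, X (x, y, z) ∈ ZG :=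
              sum_mem (fun z _ => m2 x z)
            rw [Finset.sum_comm, ← Finset.sum_range_add_sum_Ico
              (fun y => ∑ z ∈ range (c + 1), X (x, y, z)) (show b + 1 ≤ J by omega)] at h3
            have h4 : ∑ y ∈ Ico (b + 1) J, ∑ z ∈ range (c + 1), X (x, y, z) ∈ ZG := by
              apply sum_mem
              intro y hy
              rw [Finset.mem_Ico] at hy
              exact t1 x y h1 (by omega)
            have h5 := sub_mem h3 h4
            rwa [add_sub_cancel_right] at h5
          have t3 : ∑ x ∈ range (a + 1), ∑ y ∈ range (b + 1), ∑ z ∈ range (c + 1),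
              X (x, y, z) ∈ ZG := by
            have h3 : ∑ y ∈ range (b + 1), ∑ z ∈ range (c + 1), ∑ x ∈ range I, X (x, y, z) ∈ ZG :=
              sum_mem (fun y _ => sum_mem (fun z _ => m3 y z))
            have h3' : ∑ x ∈ range I, ∑ y ∈ range (b + 1), ∑ z ∈ range (c + 1),
                X (x, y, z) ∈ ZG := by
              rw [Finset.sum_comm]
              have e1 : ∀ y ∈ range (b + 1), ∑ x ∈ range I, ∑ z ∈ range (c + 1), X (x, y, z) =
                  ∑ z ∈ range (c + 1), ∑ x ∈ range I, X (x, y, z) := fun y _ => Finset.sum_comm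
              rw [Finset.sum_congr rfl e1]
              exact h3
            rw [← Finset.sum_range_add_sum_Ico (fun x => ∑ y ∈ range (b + 1),
              ∑ z ∈ range (c + 1), X (x, y, z)) (show a + 1 ≤ I by omega)] at h3'
            have h4 : ∑ x ∈ Ico (a + 1) I, ∑ y ∈ range (b + 1), ∑ z ∈ range (c + 1),
                X (x, y, z) ∈ ZG := by
              apply sum_mem
              intro x hx
              rw [Finset.mem_Ico] at hx
              exact t2 x (by omega)
            have h5 := sub_mem h3' h4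
            rwa [add_sub_cancel_right] at h5
          set Bx : Finset (ℕ × ℕ × ℕ) := range (a + 1) ×ˢ range (b + 1) ×ˢ range (c + 1)
            with hBx
          have t4 : ∑ v ∈ Bx, X v ∈ ZG := by
            rw [hBx, Finset.sum_product]
            have e1 : ∀ x ∈ range (a + 1), ∑ w ∈ range (b + 1) ×ˢ range (c + 1), X (x, w) =
                ∑ y ∈ range (b + 1), ∑ z ∈ range (c + 1), X (x, y, z) := fun x _ =>
              Finset.sum_product _ _ _
            rw [Finset.sum_congr rfl e1]
            exact t3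
          have hmem : (a, b, c) ∈ Bx := by
            rw [hBx, Finset.mem_product, Finset.mem_product, Finset.mem_range,
              Finset.mem_range, Finset.mem_range]
            exact ⟨Nat.lt_succ_self a, Nat.lt_succ_self b, Nat.lt_succ_self c⟩
          rw [← Finset.add_sum_erase Bx X hmem] at t4
          have t5 : ∑ v ∈ Bx.erase (a, b, c), X v ∈ ZG := by
            apply sum_mem
            intro v hv
            rw [Finset.mem_erase, hBx, Finset.mem_product, Finset.mem_product,
              Finset.mem_range, Finset.mem_range, Finset.mem_range] at hv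
            by_cases hvC : v ∈ C
            · apply hXR v hvC
              intro hvR
              have h6 := hmin v hvR
              obtain ⟨x, y, z⟩ := v
              simp only at h6 hv
              apply hv.1
              have e1 : x = a := by omega
              have e2 : y = b := by omega
              have e3 : z = c := by omega
              rw [e1, e2, e3]
            · rw [hX0 v hvC]
              exact zero_mem _
          have t6 := sub_mem t4 t5
          rwa [add_sub_cancel_right] at t6
        obtain ⟨Z, z0, z1, z2, z3, z4⟩ := ih (R.erase (a, b, c)) hR' hR'n hR'up X hX0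
          m1 m2 m3 (by
            intro v hv hvR
            by_cases hva : v = (a, b, c)
            · rw [hva]
              exact hXv
            · exact hXR v hv (fun h => hvR (Finset.mem_erase.mpr ⟨hva, h⟩)))
        refine ⟨Z, z0, z1, z2, z3, ?_⟩
        intro v
        refine le_trans (z4 v) ?_
        push_cast
        linarith

/-- Rounding of a three dimensional table. -/
theorem round3 (I J T : ℕ) (C : Finset (ℕ × ℕ × ℕ))
    (hCb : ∀ v ∈ C, v.1 < I ∧ v.2.1 < J ∧ v.2.2 < T)
    (hC : ∀ a a' b b' c c' : ℕ, a < a' → b < b' → c < c' → (a, b, c) ∈ C → (a', b', c') ∈ C →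
      (a', b, c) ∈ C ∧ (a, b', c) ∈ C ∧ (a, b, c') ∈ C ∧ (a', b', c) ∈ C ∧
        (a', b, c') ∈ C ∧ (a, b', c') ∈ C)
    (X : ℕ × ℕ × ℕ → ℝ) (hX0 : ∀ v, v ∉ C → X v = 0) (hXC : ∀ v ∈ C, (C.card : ℝ) ≤ X v)
    (m1 : ∀ a b, ∑ c ∈ range T, X (a, b, c) ∈ ZG) (m2 : ∀ a c, ∑ b ∈ range J, X (a, b, c) ∈ ZG)
    (m3 : ∀ b c, ∑ a ∈ range I, X (a, b, c) ∈ ZG) :
    ∃ Z : ℕ × ℕ × ℕ → ℕ, (∀ v, v ∉ C → Z v = 0) ∧
      (∀ a b, ∑ c ∈ range T, (Z (a, b, c) : ℝ) = ∑ c ∈ range T, X (a, b, c)) ∧
      (∀ a c, ∑ b ∈ range J, (Z (a, b, c) : ℝ) = ∑ b ∈ range J, X (a, b, c)) ∧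
      (∀ b c, ∑ a ∈ range I, (Z (a, b, c) : ℝ) = ∑ a ∈ range I, X (a, b, c)) := by
  classical
  obtain ⟨Z, z0, z1, z2, z3, z4⟩ := round3_aux I J T C hCb hC C.card C (Finset.Subset.refl _)
    le_rfl (fun _ _ u hu _ _ _ => hu) X hX0 m1 m2 m3 (fun v hv hv' => absurd hv hv')
  have hZ0 : ∀ v, 0 ≤ Z v := by
    intro v
    by_cases hv : v ∈ C
    · have h1 := (abs_le.mp (z4 v)).1
      have h2 := hXC v hv
      have h3 : (0 : ℝ) ≤ (Z v : ℝ) := by linarith
      exact_mod_cast h3
    · rw [z0 v hv]
  have hcast : ∀ v, (((Z v).toNat : ℕ) : ℝ) = (Z v : ℝ) := by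
    intro v
    have h1 := Int.toNat_of_nonneg (hZ0 v)
    exact_mod_cast h1
  refine ⟨fun v => (Z v).toNat, ?_, ?_, ?_, ?_⟩
  · intro v hv
    simp only
    rw [z0 v hv]
    rfl
  · intro a b
    rw [← z1 a b]
    exact Finset.sum_congr rfl (fun c _ => hcast _)
  · intro a b
    rw [← z2 a b]
    exact Finset.sum_congr rfl (fun c _ => hcast _)
  · intro a b
    rw [← z3 a b]
    exact Finset.sum_congr rfl (fun c _ => hcast _)

end Pool.MP_d56194_co
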