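import Mathlib
import Pool.Agent.Lib.MP_d56194_co.I.I2
import Pool.Agent.Lib.MP_d56194_co.I.I3
import Pool.Agent.Lib.MP_d56194_co.I.I4

set_option autoImplicit false

namespace Pool.MP_d56194_co

open Finset

theorem sum_div_block {G : Type} [AddCommMonoid G] (n : ℕ) (hn : 0 < n) (g : ℕ → G) (t r : ℕ)
    (hr : r ≤ n) :
    ∑ f ∈ range (n * t + r), g (f / n) = n • ∑ τ ∈ range t, g τ + r • g t := by
  have h0 : ∀ t r, r ≤ n → ∑ j ∈ range r, g ((n * t + j) / n) = r • g t := by
    intro t r hr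
    rw [Finset.sum_congr rfl (g := fun _ => g t)]
    · rw [Finset.sum_const, Finset.card_range]
    · intro j hj
      rw [Finset.mem_range] at hj
      congr 1
      rw [Nat.mul_add_div hn, Nat.div_eq_of_lt (by omega), add_zero]
  have h1 : ∀ t, ∑ f ∈ range (n * t), g (f / n) = n • ∑ τ ∈ range t, g τ := by
    intro t
    induction t with
    | zero => simp
    | succ t ih =>
      rw [Nat.mul_succ, Finset.sum_range_add, ih, h0 t n le_rfl, Finset.sum_range_succ, smul_add]
  rw [Finset.sum_range_add, h1, h0 t r hr]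

theorem sum_tele {G : Type} [AddCommMonoid G] (u : ℕ → ℕ) (g : ℕ → G) (Φ : ℕ)
    (hu : ∀ φ, φ < Φ → u φ ≤ u (φ + 1)) (h0 : u 0 = 0) :
    ∑ φ ∈ range Φ, ∑ f ∈ Ico (u φ) (u (φ + 1)), g f = ∑ f ∈ range (u Φ), g f := by
  induction Φ with
  | zero => rw [h0]; simp
  | succ Φ ih =>
    rw [Finset.sum_range_succ, ih (fun φ hφ => hu φ (by omega)), Finset.range_eq_Ico,
      Finset.sum_Ico_consecutive _ (Nat.zero_le _) (hu Φ (by omega)), ← Finset.range_eq_Ico]

/-- a uniform lower bound for the positive values -/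
theorem exists_eps {V : Type} (S : Finset V) (g : V → ℝ) :
    ∃ ε : ℝ, 0 < ε ∧ ∀ v ∈ S, 0 < g v → ε ≤ g v := by
  classical
  induction S using Finset.induction_on with
  | empty => exact ⟨1, one_pos, fun v hv => absurd hv (Finset.notMem_empty v)⟩
  | insert a S _ ih =>
    obtain ⟨ε, h1, h2⟩ := ih
    by_cases hg : 0 < g a
    · refine ⟨min ε (g a), lt_min h1 hg, ?_⟩
      intro v hv hv0
      rw [Finset.mem_insert] at hv
      rcases hv with rfl | hv
      · exact min_le_right _ _
      · exact (min_le_left _ _).trans (h2 v hv hv0)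
    · refine ⟨ε, h1, ?_⟩
      intro v hv hv0
      rw [Finset.mem_insert] at hv
      rcases hv with rfl | hv
      · exact absurd hv0 hg
      · exact h2 v hv hv0

/-- the times of the phases -/
def kp (n q φ : ℕ) : ℕ := (n * (φ / 2) + (if φ % 2 = 1 then q - 1 else 0)) / q

theorem kp_even (n q t : ℕ) : kp n q (2 * t) = n * t / q := by
  unfold kp
  have h1 : 2 * t / 2 = t := by omega
  have h2 : ¬ (2 * t % 2 = 1) := by omega
  rw [h1, if_neg h2, add_zero]

theorem kp_odd (n q t : ℕ) : kp n q (2 * t + 1) = (n * t + (q - 1)) / q := by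
  unfold kp
  have h1 : (2 * t + 1) / 2 = t := by omega
  have h2 : (2 * t + 1) % 2 = 1 := by omega
  rw [h1, if_pos h2]

theorem kp_step (n q : ℕ) (hq : 0 < q) (hn : q ≤ n) (φ : ℕ) : kp n q φ ≤ kp n q (φ + 1) := by
  rcases Nat.even_or_odd' φ with ⟨t, ht | ht⟩
  · subst ht
    rw [kp_even, kp_odd]
    exact Nat.div_le_div_right (by omega)
  · subst ht
    have h1 : 2 * t + 1 + 1 = 2 * (t + 1) := by ring
    rw [h1, kp_even, kp_odd]
    apply Nat.div_le_div_right
    rw [Nat.mul_succ]
    omega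

theorem kp_zero (n q : ℕ) : kp n q 0 = 0 := by
  have h1 := kp_even n q 0
  rw [Nat.mul_zero, Nat.mul_zero, Nat.zero_div] at h1
  exact h1

/-- every time lies in a phase with a constant slope -/
theorem kp_between (n q k : ℕ) (hq : 0 < q) (hn : 0 < n) :
    kp n q (2 * (q * k / n) + 1) ≤ k ∧ k ≤ kp n q (2 * (q * k / n) + 2) := by
  set t := q * k / n with ht
  have h1 : n * t ≤ q * k := Nat.mul_div_le _ _
  have h2 : q * k < n * (t + 1) := by
    have := Nat.lt_div_mul_add (a := q * k) hn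
    rw [← ht] at this
    rw [Nat.mul_succ, Nat.mul_comm n t]
    exact this
  constructor
  · rw [kp_odd]
    rw [Nat.div_le_iff_le_mul_add_pred hq]
    omega
  · have h3 : 2 * t + 2 = 2 * (t + 1) := by ring
    rw [h3, kp_even, Nat.le_div_iff_mul_le hq, Nat.mul_comm]
    exact h2.le

end Pool.MP_d56194_co
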