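import Mathlib
import Pool.Agent.Lib.MP_d56194_co.I.I5

set_option autoImplicit false

namespace Pool.MP_d56194_co

open Finset

variable {m N M q : ℕ} {D : ℕ → ℕ → Prop} {s : ℕ → ℕ} {L : ℕ → ℕ → ℕ → ℝ}

/-- row sums of the extended table -/
theorem Sol.ext_rowsum (_ : Sol m N M q D s L) (i t : ℕ) (hi : i < m) (ht : t < M) :
    ∑ b ∈ range (N + 1), Ext m N M L (i + 1) b t = 1 := by
  rw [Finset.sum_range_succ', Ext_row, if_pos ⟨hi, ht⟩]
  have h1 : ∑ x ∈ range N, Ext m N M L (i + 1) (x + 1) t = ∑ x ∈ range N, L i x t := rfl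
  rw [h1]
  ring

theorem Sol.ext_row0 (h : Sol m N M q D s L) (t : ℕ) (ht : t < M) :
    ∑ b ∈ range (N + 1), Ext m N M L 0 b t = (N : ℝ) - s t := by
  rw [Finset.sum_range_succ', Ext_zero, add_zero]
  have h1 : ∀ x ∈ range N, Ext m N M L 0 (x + 1) t = 1 - ∑ i ∈ range m, L i x t := by
    intro x hx
    rw [Ext_col, if_pos ⟨Finset.mem_range.mp hx, ht⟩]
  rw [Finset.sum_congr rfl h1, Finset.sum_sub_distrib, Finset.sum_const, Finset.card_range,
    nsmul_eq_mul, mul_one, Finset.sum_comm, h.tot t ht]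

theorem Sol.ext_colsum (h : Sol m N M q D s L) (x t : ℕ) (hx : x < N) (ht : t < M) :
    ∑ a ∈ range (m + 1), Ext m N M L a (x + 1) t = 1 := by
  have h1 := h.swap.ext_rowsum x t hx ht
  rw [← h1]
  apply Finset.sum_congr rfl
  intro a _
  exact (Ext_swap a (x + 1) t).symm

theorem Sol.ext_col0 (h : Sol m N M q D s L) (t : ℕ) (ht : t < M) :
    ∑ a ∈ range (m + 1), Ext m N M L a 0 t = (m : ℝ) - s t := by
  have h1 := h.swap.ext_row0 t ht
  rw [← h1]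
  apply Finset.sum_congr rfl
  intro a _
  exact (Ext_swap a 0 t).symm

theorem Sol.zero_of_not (h : Sol m N M q D s L) (i x t : ℕ) (hd : ¬ D i x) : L i x t = 0 := by
  by_contra hcon
  have h1 : 0 < L i x t := lt_of_le_of_ne (h.nonneg i x t) (Ne.symm hcon)
  exact hd (h.supp i x t h1).1

open Classical in
/-- sums over all times of the extended table -/
theorem Sol.ext_time_row (h : Sol m N M q D s L) (K0 : ℕ) (hK0 : M = q * K0) (i : ℕ) :
    ∃ z : ℤ, ∑ t ∈ range M, Ext m N M L (i + 1) 0 t = (q : ℝ) * z := by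
  by_cases hi : i < m
  · have h1 : ∀ t ∈ range M, Ext m N M L (i + 1) 0 t = 1 - ∑ x ∈ range N, L i x t := by
      intro t ht
      rw [Ext_row, if_pos ⟨hi, Finset.mem_range.mp ht⟩]
    have h2 : ∀ x ∈ range N, ∑ t ∈ range M, L i x t = if D i x then (q : ℝ) else 0 := by
      intro x _
      split_ifs with hd
      · exact h.cell i x hd
      · exact Finset.sum_eq_zero (fun t _ => h.zero_of_not i x t hd)
    refine ⟨(K0 : ℤ) - (((range N).filter (fun x => D i x)).card : ℤ), ?_⟩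
    rw [Finset.sum_congr rfl h1, Finset.sum_sub_distrib, Finset.sum_const, Finset.card_range,
      nsmul_eq_mul, mul_one, Finset.sum_comm, Finset.sum_congr rfl h2, ← Finset.sum_filter,
      Finset.sum_const, nsmul_eq_mul]
    have h3 : (M : ℝ) = (q : ℝ) * K0 := by exact_mod_cast hK0
    rw [h3]
    push_cast
    ring
  · refine ⟨0, ?_⟩
    rw [Finset.sum_eq_zero]
    · simp
    · intro t _
      rw [Ext_row, if_neg (fun hc => hi hc.1)]

theorem Sol.ext_time (h : Sol m N M q D s L) (K0 : ℕ) (hK0 : M = q * K0) (i x : ℕ) :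
    ∃ z : ℤ, ∑ t ∈ range M, Ext m N M L i x t = (q : ℝ) * z := by
  rcases i with _ | i <;> rcases x with _ | x
  · exact ⟨0, by rw [Finset.sum_eq_zero (fun t _ => Ext_zero t)]; simp⟩
  · obtain ⟨z, hz⟩ := h.swap.ext_time_row K0 hK0 x
    refine ⟨z, ?_⟩
    rw [← hz]
    apply Finset.sum_congr rfl
    intro t _
    exact (Ext_swap 0 (x + 1) t).symm
  · exact h.ext_time_row K0 hK0 i
  · by_cases hd : D i x
    · exact ⟨1, by rw [Finset.sum_congr rfl (fun t _ => Ext_reg i x t), h.cell i x hd]; simp⟩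
    · refine ⟨0, ?_⟩
      rw [Finset.sum_eq_zero (fun t _ => (Ext_reg i x t).trans (h.zero_of_not i x t hd))]
      simp

/-- the integral table for a large dilation -/
theorem int_table (m N : ℕ) (lam : ℕ → ℕ) (hanti : Antitone lam)
    (hm : ∀ i, m ≤ i → lam i = 0) (hN : ∀ i, lam i ≤ N) :
    ∃ n₀ : ℕ, ∀ n, n₀ ≤ n → ∃ (Φ : ℕ) (κ P : ℕ → ℕ) (W : ℕ → ℕ → ℕ → ℕ), 0 < n ∧ κ 0 = 0 ∧
      (∀ φ, κ φ ≤ κ (φ + 1)) ∧
      (∀ i x, i < m → x < N → ∑ φ ∈ range Φ, W i x φ = if x < lam i then n * n else 0) ∧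
      (∀ i φ, i < m → φ < Φ → ∑ x ∈ range N, W i x φ ≤ n * (κ (φ + 1) - κ φ)) ∧
      (∀ x φ, x < N → φ < Φ → ∑ i ∈ range m, W i x φ ≤ n * (κ (φ + 1) - κ φ)) ∧
      (∀ φ, φ < Φ → ∑ i ∈ range m, ∑ x ∈ range N, W i x φ + P (κ φ) = P (κ (φ + 1))) ∧
      P 0 = 0 ∧
      (∀ k, k < κ Φ → ∃ φ1 φ2 σ d : ℕ, φ1 ≤ Φ ∧ φ2 ≤ Φ ∧ κ φ1 ≤ k ∧ k ≤ κ φ2 ∧
        P (κ φ1) = κ φ1 * σ + d ∧ P k = k * σ + d ∧ P (κ φ2) = κ φ2 * σ + d) ∧
      (∀ k, ∃ a b, a ≤ m ∧ b ≤ N ∧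
        P k = n * (k * (a + b) + n * ∑ i ∈ Ico a m, (lam i - b))) := by
  classical
  obtain ⟨q, M, A, B, L, hq, ⟨K0, hK0⟩, hM, hA, hB, hsol, hcut, _, _⟩ := real_sol2 m N lam hanti hm hN
  set E := Ext m N M L with hE
  have hE0 : ∀ i x t, 0 ≤ E i x t := fun i x t => hsol.ext_nonneg i x t
  obtain ⟨ε, hε, hεE⟩ := exists_eps (range (m + 1) ×ˢ range (N + 1) ×ˢ range M)
    (fun v : ℕ × ℕ × ℕ => E v.1 v.2.1 v.2.2)
  have hqR : (0 : ℝ) < q := by exact_mod_cast hq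
  set c0 := (m + 1) * ((N + 1) * (2 * M)) with hc0
  obtain ⟨n1, hn1⟩ := exists_nat_ge ((c0 : ℝ) * q / ε)
  refine ⟨max q n1, fun n hn => ?_⟩
  have hnq : q ≤ n := (le_max_left _ _).trans hn
  have hn0 : 0 < n := lt_of_lt_of_le hq hnq
  have hnn1 : n1 ≤ n := (le_max_right _ _).trans hn
  have hnε : (c0 : ℝ) ≤ (n : ℝ) / q * ε := by
    have h1 : (c0 : ℝ) * q / ε ≤ n := hn1.trans (by exact_mod_cast hnn1)
    rw [div_le_iff₀ hε] at h1
    rw [div_mul_eq_mul_div, le_div_iff₀ hqR]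
    exact h1
  set ρ : ℝ := (n : ℝ) / q with hρ
  have hρ0 : 0 < ρ := div_pos (by exact_mod_cast hn0) hqR
  have hρq : ρ * q = n := by rw [hρ]; field_simp
  set κ := kp n q with hκ
  have hκstep : ∀ φ, κ φ ≤ κ (φ + 1) := fun φ => kp_step n q hq hnq φ
  have hκmono : Monotone κ := monotone_nat_of_le_succ hκstep
  have hκ0 : κ 0 = 0 := kp_zero n q
  have hκΦ : q * κ (2 * M) = n * M := by
    rw [hκ, kp_even, hK0]
    have h1 : n * (q * K0) = q * (n * K0) := by ring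
    rw [h1, Nat.mul_div_cancel_left _ hq]
  -- the slopes
  set S : ℕ → ℕ := fun F => ∑ f ∈ range F, (A (f / n) + B (f / n)) with hS
  set out : ℕ → ℕ := fun t => ∑ i ∈ Ico (A t) m, (lam i - B t) with hout
  have hSval : ∀ t F, n * t ≤ F → F ≤ n * (t + 1) →
      S F = F * (A t + B t) + n * (q * out t) := by
    intro t F h1 h2
    obtain ⟨r, rfl⟩ := Nat.exists_eq_add_of_le h1
    rw [Nat.mul_succ] at h2
    have h3 := sum_div_block n hn0 (fun t => A t + B t) t r (by omega)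
    simp only [hS]
    rw [h3, hcut t]
    unfold ct
    simp only [smul_eq_mul, hout]
    rw [← Finset.mul_sum]
    ring
  set P : ℕ → ℕ := fun k => n * S (q * k) / q with hP
  have hPval : ∀ t k, n * t ≤ q * k → q * k ≤ n * (t + 1) →
      P k = n * (k * (A t + B t) + n * out t) := by
    intro t k h1 h2
    simp only [hP]
    rw [hSval t (q * k) h1 h2]
    have e1 : n * (q * k * (A t + B t) + n * (q * out t)) =
        q * (n * (k * (A t + B t) + n * out t)) := by ring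
    rw [e1, Nat.mul_div_cancel_left _ hq]
  have hbet : ∀ k, n * (q * k / n) ≤ q * k ∧ q * k ≤ n * (q * k / n + 1) := by
    intro k
    refine ⟨Nat.mul_div_le _ _, ?_⟩
    have := Nat.lt_div_mul_add (a := q * k) hn0
    rw [Nat.mul_succ, Nat.mul_comm n (q * k / n)]
    exact this.le
  have hqP : ∀ k, (ρ : ℝ) * (S (q * k) : ℝ) = P k := by
    intro k
    have h1 := hPval (q * k / n) k (hbet k).1 (hbet k).2
    have h2 := hSval (q * k / n) (q * k) (hbet k).1 (hbet k).2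
    rw [h1, h2]
    push_cast
    rw [← hρq]
    ring
  -- the real table
  set X : ℕ × ℕ × ℕ → ℝ := fun v => if v.1 < m + 1 ∧ v.2.1 < N + 1 ∧ v.2.2 < 2 * M then
    ρ * ∑ f ∈ Ico (q * κ v.2.2) (q * κ (v.2.2 + 1)), E v.1 v.2.1 (f / n) else 0 with hX
  have hXin : ∀ i x φ, i < m + 1 → x < N + 1 → φ < 2 * M → X (i, x, φ) =
      ρ * ∑ f ∈ Ico (q * κ φ) (q * κ (φ + 1)), E i x (f / n) := by
    intro i x φ h1 h2 h3
    simp only [hX]
    rw [if_pos ⟨h1, h2, h3⟩]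
  have hXout : ∀ i x φ, ¬ (i < m + 1 ∧ x < N + 1 ∧ φ < 2 * M) → X (i, x, φ) = 0 := by
    intro i x φ h1
    simp only [hX]
    rw [if_neg h1]
  have hsumnn : ∀ i x φ, 0 ≤ ∑ f ∈ Ico (q * κ φ) (q * κ (φ + 1)), E i x (f / n) :=
    fun i x φ => Finset.sum_nonneg (fun f _ => hE0 _ _ _)
  have hXnn : ∀ v, 0 ≤ X v := by
    rintro ⟨i, x, φ⟩
    by_cases hb : i < m + 1 ∧ x < N + 1 ∧ φ < 2 * M
    · rw [hXin i x φ hb.1 hb.2.1 hb.2.2]
      exact mul_nonneg hρ0.le (hsumnn i x φ)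
    · rw [hXout i x φ hb]
  have hpos1 : ∀ i x φ, 0 < X (i, x, φ) → (i < m + 1 ∧ x < N + 1 ∧ φ < 2 * M) ∧
      ∃ f, q * κ φ ≤ f ∧ f < q * κ (φ + 1) ∧ 0 < E i x (f / n) := by
    intro i x φ h
    have hb : i < m + 1 ∧ x < N + 1 ∧ φ < 2 * M := by
      by_contra hcon
      rw [hXout i x φ hcon] at h
      exact lt_irrefl _ h
    refine ⟨hb, ?_⟩
    by_contra hcon
    push Not at hcon
    rw [hXin i x φ hb.1 hb.2.1 hb.2.2, Finset.sum_eq_zero, mul_zero] at h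
    · exact lt_irrefl _ h
    · intro f hf
      rw [Finset.mem_Ico] at hf
      exact le_antisymm (hcon f hf.1 hf.2) (hE0 _ _ _)
  have hpos2 : ∀ i x φ, i < m + 1 → x < N + 1 → φ < 2 * M →
      (∃ f, q * κ φ ≤ f ∧ f < q * κ (φ + 1) ∧ 0 < E i x (f / n)) → ρ * ε ≤ X (i, x, φ) := by
    intro i x φ h1 h2 h3 ⟨f, h4, h5, h6⟩
    rw [hXin i x φ h1 h2 h3]
    apply mul_le_mul_of_nonneg_left _ hρ0.le
    have h7 : f / n < M := by
      have h8 : q * κ (φ + 1) ≤ q * κ (2 * M) := Nat.mul_le_mul_left q (hκmono (by omega))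
      rw [hκΦ] at h8
      rw [Nat.div_lt_iff_lt_mul hn0, Nat.mul_comm]
      omega
    have h8 : ε ≤ E i x (f / n) := hεE (i, x, f / n) (by
      rw [Finset.mem_product, Finset.mem_product, Finset.mem_range, Finset.mem_range,
        Finset.mem_range]
      exact ⟨h1, h2, h7⟩) h6
    refine h8.trans ?_
    exact Finset.single_le_sum (f := fun f => E i x (f / n)) (fun f _ => hE0 _ _ _)
      (Finset.mem_Ico.mpr ⟨h4, h5⟩)
  have hρε : 0 < ρ * ε := mul_pos hρ0 hε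
  set Bx : Finset (ℕ × ℕ × ℕ) := range (m + 1) ×ˢ range (N + 1) ×ˢ range (2 * M) with hBx
  set C := Bx.filter (fun v => 0 < X v) with hC
  have hmemC : ∀ i x φ, (i, x, φ) ∈ C ↔ 0 < X (i, x, φ) := by
    intro i x φ
    rw [hC, Finset.mem_filter, hBx, Finset.mem_product, Finset.mem_product, Finset.mem_range,
      Finset.mem_range, Finset.mem_range]
    constructor
    · exact fun h => h.2
    · exact fun h => ⟨(hpos1 i x φ h).1, h⟩
  have hCcard : (C.card : ℝ) ≤ ρ * ε := by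
    refine le_trans ?_ hnε
    have h1 : C.card ≤ c0 := by
      refine (Finset.card_filter_le _ _).trans (le_of_eq ?_)
      rw [hBx, Finset.card_product, Finset.card_product, Finset.card_range, Finset.card_range,
        Finset.card_range]
    exact_mod_cast h1
  have hXC : ∀ v ∈ C, (C.card : ℝ) ≤ X v := by
    rintro ⟨i, x, φ⟩ hv
    rw [hmemC] at hv
    obtain ⟨hb, hf⟩ := hpos1 i x φ hv
    exact hCcard.trans (hpos2 i x φ hb.1 hb.2.1 hb.2.2 hf)
  have hX0 : ∀ v, v ∉ C → X v = 0 := by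
    rintro ⟨i, x, φ⟩ hv
    rw [hmemC] at hv
    exact le_antisymm (not_lt.mp hv) (hXnn _)
  have hCb : ∀ v ∈ C, v.1 < m + 1 ∧ v.2.1 < N + 1 ∧ v.2.2 < 2 * M := by
    rintro ⟨i, x, φ⟩ hv
    rw [hmemC] at hv
    exact (hpos1 i x φ hv).1
  have hCc : ∀ a a' b b' c c' : ℕ, a < a' → b < b' → c < c' → (a, b, c) ∈ C →
      (a', b', c') ∈ C → (a', b, c) ∈ C ∧ (a, b', c) ∈ C ∧ (a, b, c') ∈ C ∧ (a', b', c) ∈ C ∧
        (a', b, c') ∈ C ∧ (a, b', c') ∈ C := by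
    intro a a' b b' c c' ha hb hc h1 h2
    simp only [hmemC] at h1 h2 ⊢
    obtain ⟨⟨i1, i2, i3⟩, f, f1, f2, f3⟩ := hpos1 _ _ _ h1
    obtain ⟨⟨j1, j2, j3⟩, f', f1', f2', f3'⟩ := hpos1 _ _ _ h2
    have hff : f ≤ f' := by
      have h8 : q * κ (c + 1) ≤ q * κ c' := Nat.mul_le_mul_left q (hκmono (by omega))
      omega
    have htt : f / n ≤ f' / n := Nat.div_le_div_right hff
    have key : 0 < E a' b (f / n) ∧ 0 < E a b' (f / n) ∧ 0 < E a b (f' / n) ∧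
        0 < E a' b' (f / n) ∧ 0 < E a' b (f' / n) ∧ 0 < E a b' (f' / n) := by
      rcases htt.eq_or_lt with h3 | h3
      · rw [← h3] at f3' ⊢
        obtain ⟨k1, k2⟩ := hsol.ext_corners2 hq a a' b b' (f / n) ha hb f3 f3'
        exact ⟨k1, k2, f3, f3', k1, k2⟩
      · exact hsol.ext_corners hq a a' b b' (f / n) (f' / n) ha hb h3 f3 f3'
    obtain ⟨k1, k2, k3, k4, k5, k6⟩ := key
    have p1 : ∀ i x, i < m + 1 → x < N + 1 → 0 < E i x (f / n) → 0 < X (i, x, c) :=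
      fun i x h1 h2 h3 => lt_of_lt_of_le hρε (hpos2 i x c h1 h2 i3 ⟨f, f1, f2, h3⟩)
    have p2 : ∀ i x, i < m + 1 → x < N + 1 → 0 < E i x (f' / n) → 0 < X (i, x, c') :=
      fun i x h1 h2 h3 => lt_of_lt_of_le hρε (hpos2 i x c' h1 h2 j3 ⟨f', f1', f2', h3⟩)
    exact ⟨p1 a' b j1 i2 k1, p1 a b' i1 j2 k2, p2 a b i1 i2 k3, p1 a' b' j1 j2 k4,
      p2 a' b j1 i2 k5, p2 a b' i1 j2 k6⟩
  -- margins
  have hcardI : ∀ φ, ((Ico (q * κ φ) (q * κ (φ + 1))).card : ℝ) =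
      (q : ℝ) * ((κ (φ + 1) : ℝ) - κ φ) := by
    intro φ
    rw [Nat.card_Ico, ← Nat.mul_sub, Nat.cast_mul, Nat.cast_sub (hκstep φ)]
  have hSdiff : ∀ φ, ρ * ∑ f ∈ Ico (q * κ φ) (q * κ (φ + 1)),
      ((A (f / n) + B (f / n) : ℕ) : ℝ) = (P (κ (φ + 1)) : ℝ) - P (κ φ) := by
    intro φ
    have h1 : (S (q * κ (φ + 1)) : ℝ) = S (q * κ φ) + ∑ f ∈ Ico (q * κ φ) (q * κ (φ + 1)),
        ((A (f / n) + B (f / n) : ℕ) : ℝ) := by
      simp only [hS]
      rw [Nat.cast_sum, Nat.cast_sum,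
        Finset.sum_range_add_sum_Ico _ (Nat.mul_le_mul_left q (hκstep φ))]
    rw [← hqP, ← hqP, h1]
    ring
  have hfM : ∀ φ f, φ < 2 * M → f ∈ Ico (q * κ φ) (q * κ (φ + 1)) → f / n < M := by
    intro φ f hφ hf
    rw [Finset.mem_Ico] at hf
    have h8 : q * κ (φ + 1) ≤ q * κ (2 * M) := Nat.mul_le_mul_left q (hκmono (by omega))
    rw [hκΦ] at h8
    rw [Nat.div_lt_iff_lt_mul hn0, Nat.mul_comm]
    omega
  have v2 : ∀ i φ, i < m → φ < 2 * M → ∑ b ∈ range (N + 1), X (i + 1, b, φ) =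
      (n : ℝ) * ((κ (φ + 1) : ℝ) - κ φ) := by
    intro i φ hi hφ
    have e1 : ∀ b ∈ range (N + 1), X (i + 1, b, φ) =
        ρ * ∑ f ∈ Ico (q * κ φ) (q * κ (φ + 1)), E (i + 1) b (f / n) := fun b hb =>
      hXin (i + 1) b φ (by omega) (Finset.mem_range.mp hb) hφ
    rw [Finset.sum_congr rfl e1, ← Finset.mul_sum, Finset.sum_comm,
      Finset.sum_congr rfl (fun f hf => hsol.ext_rowsum i (f / n) hi (hfM φ f hφ hf)),
      Finset.sum_const, nsmul_eq_mul, mul_one, hcardI, ← mul_assoc, hρq]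
  have v2' : ∀ φ, φ < 2 * M → ∑ b ∈ range (N + 1), X (0, b, φ) =
      (n : ℝ) * N * ((κ (φ + 1) : ℝ) - κ φ) - ((P (κ (φ + 1)) : ℝ) - P (κ φ)) := by
    intro φ hφ
    have e1 : ∀ b ∈ range (N + 1), X (0, b, φ) =
        ρ * ∑ f ∈ Ico (q * κ φ) (q * κ (φ + 1)), E 0 b (f / n) := fun b hb =>
      hXin 0 b φ (by omega) (Finset.mem_range.mp hb) hφ
    rw [Finset.sum_congr rfl e1, ← Finset.mul_sum, Finset.sum_comm,
      Finset.sum_congr rfl (fun f hf => hsol.ext_row0 (f / n) (hfM φ f hφ hf)),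
      Finset.sum_sub_distrib, mul_sub, hSdiff, Finset.sum_const, nsmul_eq_mul, hcardI]
    rw [← hρq]
    ring
  have v3 : ∀ x φ, x < N → φ < 2 * M → ∑ a ∈ range (m + 1), X (a, x + 1, φ) =
      (n : ℝ) * ((κ (φ + 1) : ℝ) - κ φ) := by
    intro x φ hx hφ
    have e1 : ∀ a ∈ range (m + 1), X (a, x + 1, φ) =
        ρ * ∑ f ∈ Ico (q * κ φ) (q * κ (φ + 1)), E a (x + 1) (f / n) := fun a ha =>
      hXin a (x + 1) φ (Finset.mem_range.mp ha) (by omega) hφ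
    rw [Finset.sum_congr rfl e1, ← Finset.mul_sum, Finset.sum_comm,
      Finset.sum_congr rfl (fun f hf => hsol.ext_colsum x (f / n) hx (hfM φ f hφ hf)),
      Finset.sum_const, nsmul_eq_mul, mul_one, hcardI, ← mul_assoc, hρq]
  have v3' : ∀ φ, φ < 2 * M → ∑ a ∈ range (m + 1), X (a, 0, φ) =
      (n : ℝ) * m * ((κ (φ + 1) : ℝ) - κ φ) - ((P (κ (φ + 1)) : ℝ) - P (κ φ)) := by
    intro φ hφ
    have e1 : ∀ a ∈ range (m + 1), X (a, 0, φ) =
        ρ * ∑ f ∈ Ico (q * κ φ) (q * κ (φ + 1)), E a 0 (f / n) := fun a ha =>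
      hXin a 0 φ (Finset.mem_range.mp ha) (by omega) hφ
    rw [Finset.sum_congr rfl e1, ← Finset.mul_sum, Finset.sum_comm,
      Finset.sum_congr rfl (fun f hf => hsol.ext_col0 (f / n) (hfM φ f hφ hf)),
      Finset.sum_sub_distrib, mul_sub, hSdiff, Finset.sum_const, nsmul_eq_mul, hcardI]
    rw [← hρq]
    ring
  have v1 : ∀ i x, i < m + 1 → x < N + 1 → ∑ φ ∈ range (2 * M), X (i, x, φ) =
      ρ * (n * ∑ t ∈ range M, E i x t) := by
    intro i x hi hx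
    have e1 : ∀ φ ∈ range (2 * M), X (i, x, φ) =
        ρ * ∑ f ∈ Ico (q * κ φ) (q * κ (φ + 1)), E i x (f / n) := fun φ hφ =>
      hXin i x φ hi hx (Finset.mem_range.mp hφ)
    rw [Finset.sum_congr rfl e1, ← Finset.mul_sum,
      sum_tele (fun φ => q * κ φ) (fun f => E i x (f / n)) (2 * M)
        (fun φ _ => Nat.mul_le_mul_left q (hκstep φ)) (by simp only [hκ0, Nat.mul_zero])]
    rw [hκΦ]
    have h2 := sum_div_block n hn0 (fun t => E i x t) M 0 (Nat.zero_le _)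
    rw [Nat.add_zero, zero_nsmul, add_zero, nsmul_eq_mul] at h2
    rw [h2]
  have m1 : ∀ a b, ∑ c ∈ range (2 * M), X (a, b, c) ∈ ZG := by
    intro a b
    by_cases hb : a < m + 1 ∧ b < N + 1
    · rw [v1 a b hb.1 hb.2]
      obtain ⟨z, hz⟩ := hsol.ext_time K0 hK0 a b
      rw [hz, mem_ZG]
      refine ⟨(n : ℤ) * (n * z), ?_⟩
      push_cast
      rw [← hρq]
      ring
    · rw [Finset.sum_eq_zero (fun c _ => hXout a b c (fun hcon => hb ⟨hcon.1, hcon.2.1⟩))]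
      exact zero_mem _
  have m2 : ∀ a c, ∑ b ∈ range (N + 1), X (a, b, c) ∈ ZG := by
    intro a c
    by_cases hb : a < m + 1 ∧ c < 2 * M
    · rcases a with _ | a
      · rw [v2' c hb.2, mem_ZG]
        refine ⟨(n : ℤ) * N * ((κ (c + 1) : ℤ) - κ c) - ((P (κ (c + 1)) : ℤ) - P (κ c)), ?_⟩
        push_cast
        ring
      · rw [v2 a c (by omega) hb.2, mem_ZG]
        refine ⟨(n : ℤ) * ((κ (c + 1) : ℤ) - κ c), ?_⟩
        push_cast
        ring
    · rw [Finset.sum_eq_zero (fun b _ => hXout a b c (fun hcon => hb ⟨hcon.1, hcon.2.2⟩))]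
      exact zero_mem _
  have m3 : ∀ b c, ∑ a ∈ range (m + 1), X (a, b, c) ∈ ZG := by
    intro b c
    by_cases hb : b < N + 1 ∧ c < 2 * M
    · rcases b with _ | b
      · rw [v3' c hb.2, mem_ZG]
        refine ⟨(n : ℤ) * m * ((κ (c + 1) : ℤ) - κ c) - ((P (κ (c + 1)) : ℤ) - P (κ c)), ?_⟩
        push_cast
        ring
      · rw [v3 b c (by omega) hb.2, mem_ZG]
        refine ⟨(n : ℤ) * ((κ (c + 1) : ℤ) - κ c), ?_⟩
        push_cast
        ring
    · rw [Finset.sum_eq_zero (fun a _ => hXout a b c (fun hcon => hb ⟨hcon.2.1, hcon.2.2⟩))]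
      exact zero_mem _
  obtain ⟨Z, z0, z1, z2, z3⟩ := round3 (m + 1) (N + 1) (2 * M) C hCb hCc X hX0 hXC m1 m2 m3
  have hcastκ : ∀ φ, ((n * (κ (φ + 1) - κ φ) : ℕ) : ℝ) =
      (n : ℝ) * ((κ (φ + 1) : ℝ) - κ φ) := by
    intro φ
    rw [Nat.cast_mul, Nat.cast_sub (hκstep φ)]
  have w2 : ∀ i φ, i < m → φ < 2 * M →
      ∑ x ∈ range N, (Z (i + 1, x + 1, φ) : ℝ) + Z (i + 1, 0, φ) =
        (n : ℝ) * ((κ (φ + 1) : ℝ) - κ φ) := by
    intro i φ hi hφ
    rw [← v2 i φ hi hφ, ← z2 (i + 1) φ, Finset.sum_range_succ']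
  have w3 : ∀ x φ, x < N → φ < 2 * M →
      ∑ i ∈ range m, (Z (i + 1, x + 1, φ) : ℝ) + Z (0, x + 1, φ) =
        (n : ℝ) * ((κ (φ + 1) : ℝ) - κ φ) := by
    intro x φ hx hφ
    rw [← v3 x φ hx hφ, ← z3 (x + 1) φ, Finset.sum_range_succ']
  have hZ00 : ∀ φ, Z (0, 0, φ) = 0 := by
    intro φ
    apply z0
    rw [hmemC]
    intro hcon
    obtain ⟨_, f, _, _, hf⟩ := hpos1 0 0 φ hcon
    exact absurd hf (lt_irrefl _)
  have w2' : ∀ φ, φ < 2 * M → ∑ x ∈ range N, (Z (0, x + 1, φ) : ℝ) =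
      (n : ℝ) * N * ((κ (φ + 1) : ℝ) - κ φ) - ((P (κ (φ + 1)) : ℝ) - P (κ φ)) := by
    intro φ hφ
    rw [← v2' φ hφ, ← z2 0 φ, Finset.sum_range_succ', hZ00]
    simp
  refine ⟨2 * M, κ, P, fun i x φ => Z (i + 1, x + 1, φ), hn0, hκ0, hκstep, ?_, ?_, ?_, ?_, ?_,
    ?_, ?_⟩
  · intro i x hi hx
    have h1 : ((∑ φ ∈ range (2 * M), Z (i + 1, x + 1, φ) : ℕ) : ℝ) =
        ((if x < lam i then n * n else 0 : ℕ) : ℝ) := by
      rw [Nat.cast_sum, z1, v1 (i + 1) (x + 1) (by omega) (by omega)]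
      have h2 : ∑ t ∈ range M, E (i + 1) (x + 1) t = if x < lam i then (q : ℝ) else 0 := by
        have h3 : ∑ t ∈ range M, E (i + 1) (x + 1) t = ∑ t ∈ range M, L i x t := rfl
        rw [h3]
        split_ifs with hd
        · exact hsol.cell i x hd
        · exact Finset.sum_eq_zero (fun t _ => hsol.zero_of_not i x t hd)
      rw [h2]
      split_ifs
      · push_cast
        rw [← hρq]
        ring
      · simp
    exact_mod_cast h1
  · intro i φ hi hφ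
    have h1 : ((∑ x ∈ range N, Z (i + 1, x + 1, φ) : ℕ) : ℝ) ≤
        ((n * (κ (φ + 1) - κ φ) : ℕ) : ℝ) := by
      rw [hcastκ, ← w2 i φ hi hφ, Nat.cast_sum]
      have : (0 : ℝ) ≤ (Z (i + 1, 0, φ) : ℝ) := Nat.cast_nonneg _
      linarith
    exact_mod_cast h1
  · intro x φ hx hφ
    have h1 : ((∑ i ∈ range m, Z (i + 1, x + 1, φ) : ℕ) : ℝ) ≤
        ((n * (κ (φ + 1) - κ φ) : ℕ) : ℝ) := by
      rw [hcastκ, ← w3 x φ hx hφ, Nat.cast_sum]
      have : (0 : ℝ) ≤ (Z (0, x + 1, φ) : ℝ) := Nat.cast_nonneg _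
      linarith
    exact_mod_cast h1
  · intro φ hφ
    have h1 : ((∑ i ∈ range m, ∑ x ∈ range N, Z (i + 1, x + 1, φ) + P (κ φ) : ℕ) : ℝ) =
        ((P (κ (φ + 1)) : ℕ) : ℝ) := by
      rw [Nat.cast_add, Finset.sum_comm, Nat.cast_sum]
      have h2 : ∀ x ∈ range N, ((∑ i ∈ range m, Z (i + 1, x + 1, φ) : ℕ) : ℝ) =
          (n : ℝ) * ((κ (φ + 1) : ℝ) - κ φ) - Z (0, x + 1, φ) := by
        intro x hx
        rw [Nat.cast_sum, ← w3 x φ (Finset.mem_range.mp hx) hφ]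
        ring
      rw [Finset.sum_congr rfl h2, Finset.sum_sub_distrib, w2' φ hφ, Finset.sum_const,
        Finset.card_range, nsmul_eq_mul]
      ring
    exact_mod_cast h1
  · simp only [hP]
    rw [Nat.mul_zero]
    simp [hS]
  · intro k hk
    have hkM : q * k < n * M := by
      have h1 : q * (k + 1) ≤ q * κ (2 * M) := Nat.mul_le_mul_left q hk
      rw [hκΦ, Nat.mul_succ] at h1
      omega
    set t := q * k / n with ht
    have htM : t < M := by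
      rw [ht]
      exact (Nat.div_lt_iff_lt_mul hn0).mpr (by rw [Nat.mul_comm M n]; exact hkM)
    obtain ⟨b1, b2⟩ := kp_between n q k hq hn0
    obtain ⟨c1, c2⟩ := hbet k
    rw [← ht] at b1 b2 c1 c2
    have d1 : n * t ≤ q * κ (2 * t + 1) ∧ q * κ (2 * t + 1) ≤ n * (t + 1) := by
      constructor
      · rw [hκ, kp_odd]
        have h1 := Nat.div_add_mod (n * t + (q - 1)) q
        have h2 := Nat.mod_lt (n * t + (q - 1)) hq
        omega
      · exact (Nat.mul_le_mul_left q b1).trans c2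
    have d2 : n * t ≤ q * κ (2 * t + 2) ∧ q * κ (2 * t + 2) ≤ n * (t + 1) := by
      constructor
      · exact c1.trans (Nat.mul_le_mul_left q b2)
      · have h3 : 2 * t + 2 = 2 * (t + 1) := by ring
        rw [h3, hκ, kp_even]
        exact Nat.mul_div_le _ _
    refine ⟨2 * t + 1, 2 * t + 2, n * (A t + B t), n * (n * out t), by omega, by omega, b1, b2,
      ?_, ?_, ?_⟩
    · rw [hPval t _ d1.1 d1.2]
      ring
    · rw [hPval t _ c1 c2]
      ring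
    · rw [hPval t _ d2.1 d2.2]
      ring
  · intro k
    refine ⟨A (q * k / n), B (q * k / n), hA _, hB _, ?_⟩
    exact hPval (q * k / n) k (hbet k).1 (hbet k).2

end Pool.MP_d56194_co
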