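import Mathlib
import Pool.Agent.Lib.MP_d56194_co.H.H6

set_option autoImplicit false

namespace Pool.MP_d56194_co

open Finset

/-- the rows with the label `l` -/
def rowsL (μ : YoungDiagram) (la : ℕ → ℕ) (l : ℕ) : Finset ℕ :=
  (range (μ.colLen 0)).filter (fun i => la i = l)

/-- the columns with the label `h` -/
def colsL (μ : YoungDiagram) (lb : ℕ → ℕ) (h : ℕ) : Finset ℕ :=
  (range (μ.rowLen 0)).filter (fun j => lb j = h)

theorem mem_rowsL (μ : YoungDiagram) (la : ℕ → ℕ) (l i : ℕ) :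
    i ∈ rowsL μ la l ↔ i < μ.colLen 0 ∧ la i = l := by
  simp [rowsL]

theorem mem_colsL (μ : YoungDiagram) (lb : ℕ → ℕ) (h j : ℕ) :
    j ∈ colsL μ lb h ↔ j < μ.rowLen 0 ∧ lb j = h := by
  simp [colsL]

/-- the cells of a block: all pairs of a row of the length `l` and a column of the length `h`,
if it is in the diagram -/
theorem block_cardL (μ : YoungDiagram) (la lb : ℕ → ℕ)
    (hla : ∀ i i', i < μ.colLen 0 → i' < μ.colLen 0 → la i = la i' → μ.rowLen i = μ.rowLen i')
    (hlb : ∀ j j', j < μ.rowLen 0 → j' < μ.rowLen 0 → lb j = lb j' → μ.colLen j = μ.colLen j')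
    (e : ℕ × ℕ) (he : e ∈ μ.cells) :
    (univ.filter (fun e' : μ.cells => la e'.1.1 = la e.1 ∧
      lb e'.1.2 = lb e.2)).card =
      (rowsL μ la (la e.1)).card * (colsL μ lb (lb e.2)).card := by
  classical
  rw [← Finset.card_product]
  apply Finset.card_bij (fun e' _ => e'.1)
  · intro e' he'
    rw [Finset.mem_filter] at he'
    obtain ⟨a, b, c⟩ := cell_lt μ e'.1 e'.2
    rw [Finset.mem_product, mem_rowsL, mem_colsL]
    exact ⟨⟨a, he'.2.1⟩, ⟨b, he'.2.2⟩⟩
  · intro e1 _ e2 _ h
    exact Subtype.ext h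
  · intro v hv
    rw [Finset.mem_product, mem_rowsL, mem_colsL] at hv
    have h1 : (e.1, e.2) ∈ μ := (YoungDiagram.mem_cells _).mp he
    obtain ⟨b1, b2, _⟩ := cell_lt μ e he
    have h2 : (v.1, e.2) ∈ μ := swap_row μ e.1 v.1 e.2
      (hla e.1 v.1 b1 hv.1.1 hv.1.2.symm) h1
    have h3 : (v.1, v.2) ∈ μ := swap_col μ v.1 e.2 v.2
      (hlb e.2 v.2 b2 hv.2.1 hv.2.2.symm) h2
    refine ⟨⟨v, (YoungDiagram.mem_cells _).mpr h3⟩, ?_, rfl⟩
    rw [Finset.mem_filter]
    exact ⟨Finset.mem_univ _, hv.1.2, hv.2.2⟩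

/-- Rearrangement inside the blocks after which all initial segments are balanced in the rows
and in the columns. -/
theorem detach_lab (μ : YoungDiagram) (la lb : ℕ → ℕ)
    (hla : ∀ i i', i < μ.colLen 0 → i' < μ.colLen 0 → la i = la i' → μ.rowLen i = μ.rowLen i')
    (hlb : ∀ j j', j < μ.rowLen 0 → j' < μ.rowLen 0 → lb j = lb j' → μ.colLen j = μ.colLen j')
    (ψ0 : μ.cells → ℕ) :
    ∃ ψ : μ.cells → ℕ,
      (∀ i j, i < μ.colLen 0 →
        (univ.filter (fun v : μ.cells => v.1.1 = i ∧ ψ v < j)).card *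
          (rowsL μ la (la i)).card ≤
        (univ.filter (fun e : μ.cells => la e.1.1 = la i ∧ ψ0 e < j)).card +
          ((rowsL μ la (la i)).card - 1)) ∧
      (∀ x j, x < μ.rowLen 0 →
        (univ.filter (fun v : μ.cells => v.1.2 = x ∧ ψ v < j)).card *
          (colsL μ lb (lb x)).card ≤
        (univ.filter (fun e : μ.cells => lb e.1.2 = lb x ∧ ψ0 e < j)).card +
          ((colsL μ lb (lb x)).card - 1)) ∧
      (∀ j, (univ.filter (fun v : μ.cells => ψ v < j)).card =
        (univ.filter (fun e : μ.cells => ψ0 e < j)).card) := by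
  classical
  -- a key which orders by `ψ0`
  set M := Fintype.card μ.cells with hM
  set idx : μ.cells ≃ Fin M := Fintype.equivFin μ.cells with hidx
  set key : μ.cells → ℕ := fun e => ψ0 e * M + (idx e).1 with hkeydef
  have hkeylt : ∀ (e : μ.cells) (t : ℕ), key e < t * M ↔ ψ0 e < t := by
    intro e t
    have h1 := (idx e).2
    simp only [hkeydef]
    constructor
    · intro h
      by_contra hcon
      have h2 : t * M ≤ ψ0 e * M := Nat.mul_le_mul_right _ (by omega)
      omega
    · intro h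
      have h2 : (ψ0 e + 1) * M ≤ t * M := Nat.mul_le_mul_right _ (by omega)
      rw [Nat.add_mul, one_mul] at h2
      omega
  have hkey : Function.Injective key := by
    intro p q h
    have h1 : ψ0 p = ψ0 q := by
      have h2 := (hkeylt p (ψ0 q + 1)).mp (by
        rw [h]
        exact (hkeylt q (ψ0 q + 1)).mpr (by omega))
      have h3 := (hkeylt q (ψ0 p + 1)).mp (by
        rw [← h]
        exact (hkeylt p (ψ0 p + 1)).mpr (by omega))
      omega
    have h2 : (idx p).1 = (idx q).1 := by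
      simp only [hkeydef] at h
      rw [h1] at h
      omega
    exact idx.injective (Fin.ext h2)
  -- rows
  obtain ⟨ρ, hρ1, hρ2, hρ3⟩ := balance (fun e : μ.cells => la e.1.1)
    (fun e : μ.cells => lb e.1.2) key hkey (rowsL μ la) (by
      intro e
      exact ⟨e.1.1, (mem_rowsL μ la _ _).mpr ⟨(cell_lt μ e.1 e.2).1, rfl⟩⟩)
  -- columns
  obtain ⟨σ, hσ1, hσ2, hσ3⟩ := balance (fun e : μ.cells => lb e.1.2) ρ key hkey
    (colsL μ lb) (by
      intro e
      exact ⟨e.1.2, (mem_colsL μ lb _ _).mpr ⟨(cell_lt μ e.1 e.2).2.1, rfl⟩⟩)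
  have hρrow : ∀ e, la (ρ e) = la e.1.1 := fun e =>
    ((mem_rowsL μ la _ _).mp (hρ1 e)).2
  have hρm : ∀ e, ρ e < μ.colLen 0 := fun e => ((mem_rowsL μ la _ _).mp (hρ1 e)).1
  have hσcol : ∀ e, lb (σ e) = lb e.1.2 := fun e =>
    ((mem_colsL μ lb _ _).mp (hσ1 e)).2
  have hσN : ∀ e, σ e < μ.rowLen 0 := fun e => ((mem_colsL μ lb _ _).mp (hσ1 e)).1
  have hbig : ∀ e : μ.cells, key e < (ψ0 e + 1) * M := fun e => (hkeylt e _).mpr (by omega)
  obtain ⟨B, hB⟩ : ∃ B, ∀ e : μ.cells, key e < B := by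
    refine ⟨∑ e : μ.cells, (key e + 1), ?_⟩
    intro e
    have h1 : key e + 1 ≤ ∑ e : μ.cells, (key e + 1) :=
      Finset.single_le_sum (f := fun e : μ.cells => key e + 1)
        (fun _ _ => Nat.zero_le _) (Finset.mem_univ e)
    omega
  -- each row gets at most as many cells of a column length as there are such columns
  have hcnt : ∀ (e : μ.cells) (i : ℕ), i ∈ rowsL μ la (la e.1.1) →
      (univ.filter (fun e' : μ.cells => lb e'.1.2 = lb e.1.2 ∧ ρ e' = i)).card ≤
        (colsL μ lb (lb e.1.2)).card := by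
    intro e i hi
    have hpos : 0 < (rowsL μ la (la e.1.1)).card := Finset.card_pos.mpr ⟨i, hi⟩
    have h1 := hρ3 (la e.1.1) (lb e.1.2) B i hi
    have h2 : univ.filter (fun e' : μ.cells => (la e'.1.1 = la e.1.1 ∧
        lb e'.1.2 = lb e.1.2) ∧ key e' < B ∧ ρ e' = i) =
        univ.filter (fun e' : μ.cells => lb e'.1.2 = lb e.1.2 ∧ ρ e' = i) := by
      apply Finset.filter_congr
      intro e' _
      constructor
      · rintro ⟨⟨_, h3⟩, _, h4⟩
        exact ⟨h3, h4⟩
      · rintro ⟨h3, h4⟩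
        refine ⟨⟨?_, h3⟩, hB e', h4⟩
        rw [← hρrow e', h4]
        exact ((mem_rowsL μ la _ _).mp hi).2
    have h3 : univ.filter (fun e' : μ.cells => (la e'.1.1 = la e.1.1 ∧
        lb e'.1.2 = lb e.1.2) ∧ key e' < B) =
        univ.filter (fun e' : μ.cells => la e'.1.1 = la e.1.1 ∧
          lb e'.1.2 = lb e.1.2) := by
      apply Finset.filter_congr
      intro e' _
      constructor
      · rintro ⟨h4, _⟩
        exact h4
      · intro h4
        exact ⟨h4, hB e'⟩
    rw [h2, h3, block_cardL μ la lb hla hlb e.1 e.2] at h1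
    set x := (univ.filter (fun e' : μ.cells => lb e'.1.2 = lb e.1.2 ∧
      ρ e' = i)).card with hx
    set r := (rowsL μ la (la e.1.1)).card with hr
    set cc := (colsL μ lb (lb e.1.2)).card with hcc
    by_contra hcon
    have h4 : (cc + 1) * r ≤ x * r := Nat.mul_le_mul_right _ (by omega)
    rw [Nat.add_mul, one_mul] at h4
    have h5 : r * cc = cc * r := Nat.mul_comm _ _
    omega
  have hinj : ∀ e e' : μ.cells, ρ e = ρ e' → σ e = σ e' → e = e' := by
    intro e e' h1 h2
    by_contra hne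
    have hpos : 0 < (colsL μ lb (lb e.1.2)).card := Finset.card_pos.mpr ⟨_, hσ1 e⟩
    have h3 := hσ3 (lb e.1.2) (ρ e) B (σ e) (hσ1 e)
    have h4 : 2 ≤ (univ.filter (fun e'' : μ.cells => (lb e''.1.2 = lb e.1.2 ∧
        ρ e'' = ρ e) ∧ key e'' < B ∧ σ e'' = σ e)).card := by
      have h5 : ({e, e'} : Finset μ.cells) ⊆ univ.filter (fun e'' : μ.cells =>
          (lb e''.1.2 = lb e.1.2 ∧ ρ e'' = ρ e) ∧ key e'' < B ∧ σ e'' = σ e) := by
        intro v hv
        rw [Finset.mem_insert, Finset.mem_singleton] at hv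
        rw [Finset.mem_filter]
        rcases hv with rfl | rfl
        · exact ⟨Finset.mem_univ _, ⟨rfl, rfl⟩, hB _, rfl⟩
        · refine ⟨Finset.mem_univ _, ⟨?_, h1.symm⟩, hB _, h2.symm⟩
          rw [← hσcol v, ← h2, hσcol e]
      refine le_trans (le_of_eq ?_) (Finset.card_le_card h5)
      rw [Finset.card_pair hne]
    have h6 : (univ.filter (fun e'' : μ.cells => (lb e''.1.2 = lb e.1.2 ∧
        ρ e'' = ρ e) ∧ key e'' < B)).card ≤ (colsL μ lb (lb e.1.2)).card := by
      refine le_trans (Finset.card_le_card ?_) (hcnt e (ρ e) (hρ1 e))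
      intro v hv
      rw [Finset.mem_filter] at hv ⊢
      exact ⟨hv.1, hv.2.1⟩
    have h7 := Nat.mul_le_mul_right (colsL μ lb (lb e.1.2)).card h4
    omega
  have hmem : ∀ e : μ.cells, (ρ e, σ e) ∈ μ.cells := by
    intro e
    rw [YoungDiagram.mem_cells]
    have h1 : (e.1.1, e.1.2) ∈ μ := (YoungDiagram.mem_cells _).mp e.2
    obtain ⟨b1, b2, _⟩ := cell_lt μ e.1 e.2
    exact swap_col μ _ _ _ (hlb _ _ b2 (hσN e) (hσcol e).symm)
      (swap_row μ _ _ _ (hla _ _ b1 (hρm e) (hρrow e).symm) h1)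
  set Φ : μ.cells → μ.cells := fun e => ⟨(ρ e, σ e), hmem e⟩ with hΦ
  have hΦinj : Function.Injective Φ := by
    intro e e' h
    have h1 := congrArg Subtype.val h
    simp only [hΦ, Prod.mk.injEq] at h1
    exact hinj e e' h1.1 h1.2
  have hΦbij : Function.Bijective Φ := Finite.injective_iff_bijective.mp hΦinj
  set Ψ : μ.cells ≃ μ.cells := Equiv.ofBijective Φ hΦbij with hΨ
  have hΨv : ∀ e, (Ψ e).1 = (ρ e, σ e) := fun e => rfl
  refine ⟨fun v => ψ0 (Ψ.symm v), ?_, ?_, ?_⟩
  · intro i j hi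
    have h1 := hρ2 (la i) (j * M) i ((mem_rowsL μ la _ _).mpr ⟨hi, rfl⟩)
    have h2 : (univ.filter (fun v : μ.cells => v.1.1 = i ∧ ψ0 (Ψ.symm v) < j)).card ≤
        (univ.filter (fun e : μ.cells => la e.1.1 = la i ∧ key e < j * M ∧
          ρ e = i)).card := by
      apply Finset.card_le_card_of_injOn (fun v => Ψ.symm v)
      · intro v hv
        rw [Finset.mem_coe, Finset.mem_filter] at hv
        rw [Finset.mem_coe, Finset.mem_filter]
        have h3 := hΨv (Ψ.symm v)
        rw [Equiv.apply_symm_apply] at h3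
        have h4 : ρ (Ψ.symm v) = i := by
          rw [← hv.2.1, h3]
        refine ⟨Finset.mem_univ _, ?_, (hkeylt _ _).mpr hv.2.2, h4⟩
        rw [← hρrow, h4]
      · intro v _ v' _ h
        exact Ψ.symm.injective h
    have h3 : univ.filter (fun e : μ.cells => la e.1.1 = la i ∧ key e < j * M) =
        univ.filter (fun e : μ.cells => la e.1.1 = la i ∧ ψ0 e < j) := by
      apply Finset.filter_congr
      intro e _
      rw [hkeylt]
    rw [h3] at h1
    exact le_trans (Nat.mul_le_mul_right _ h2) h1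
  · intro x j hx
    have h1 := hσ2 (lb x) (j * M) x ((mem_colsL μ lb _ _).mpr ⟨hx, rfl⟩)
    have h2 : (univ.filter (fun v : μ.cells => v.1.2 = x ∧ ψ0 (Ψ.symm v) < j)).card ≤
        (univ.filter (fun e : μ.cells => lb e.1.2 = lb x ∧ key e < j * M ∧
          σ e = x)).card := by
      apply Finset.card_le_card_of_injOn (fun v => Ψ.symm v)
      · intro v hv
        rw [Finset.mem_coe, Finset.mem_filter] at hv
        rw [Finset.mem_coe, Finset.mem_filter]
        have h3 := hΨv (Ψ.symm v)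
        rw [Equiv.apply_symm_apply] at h3
        have h4 : σ (Ψ.symm v) = x := by
          rw [← hv.2.1, h3]
        refine ⟨Finset.mem_univ _, ?_, (hkeylt _ _).mpr hv.2.2, h4⟩
        rw [← hσcol, h4]
      · intro v _ v' _ h
        exact Ψ.symm.injective h
    have h3 : univ.filter (fun e : μ.cells => lb e.1.2 = lb x ∧ key e < j * M) =
        univ.filter (fun e : μ.cells => lb e.1.2 = lb x ∧ ψ0 e < j) := by
      apply Finset.filter_congr
      intro e _
      rw [hkeylt]
    rw [h3] at h1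
    exact le_trans (Nat.mul_le_mul_right _ h2) h1
  · intro j
    apply Finset.card_bij (fun v _ => Ψ.symm v)
    · intro v hv
      rw [Finset.mem_filter] at hv ⊢
      exact ⟨Finset.mem_univ _, hv.2⟩
    · intro v _ v' _ h
      exact Ψ.symm.injective h
    · intro e he
      rw [Finset.mem_filter] at he
      refine ⟨Ψ e, ?_, Equiv.symm_apply_apply _ _⟩
      rw [Finset.mem_filter]
      refine ⟨Finset.mem_univ _, ?_⟩
      show ψ0 (Ψ.symm (Ψ e)) < j
      rw [Equiv.symm_apply_apply]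
      exact he.2

end Pool.MP_d56194_co
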