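import Mathlib
import Pool.Agent.Lib.MP_d56194_co.F.F10
import Pool.Agent.Lib.MP_d56194_co.H.H1
import Pool.Agent.Lib.MP_d56194_co.H.H8
import Pool.Agent.Lib.MP_d56194_co.H.H9
import Pool.Agent.Lib.MP_d56194_co.I.I6
import Pool.Agent.Lib.MP_d56194_co.I.I7

set_option autoImplicit false

namespace Pool.MP_d56194_co

open Finset

/-- From a chain of sets of cells at the ends of the phases to a colouring. -/
theorem phases_col (μ : YoungDiagram) (Φ : ℕ) (κ P : ℕ → ℕ) (hκ0 : κ 0 = 0)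
    (hκ : ∀ φ, κ φ ≤ κ (φ + 1)) (ψ : μ.cells → ℕ) (hψ : ∀ v, ψ v < Φ)
    (hrow : ∀ i φ, φ ≤ Φ → (univ.filter (fun v : μ.cells => v.1.1 = i ∧ ψ v < φ)).card ≤ κ φ)
    (hcol : ∀ x φ, φ ≤ Φ → (univ.filter (fun v : μ.cells => v.1.2 = x ∧ ψ v < φ)).card ≤ κ φ)
    (htot : ∀ φ, φ ≤ Φ → P (κ φ) ≤ (univ.filter (fun v : μ.cells => ψ v < φ)).card)
    (hlin : ∀ k, k < κ Φ → ∃ φ1 φ2 σ d : ℕ, φ1 ≤ Φ ∧ φ2 ≤ Φ ∧ κ φ1 ≤ k ∧ k ≤ κ φ2 ∧
      P (κ φ1) = κ φ1 * σ + d ∧ P k = k * σ + d ∧ P (κ φ2) = κ φ2 * σ + d) :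
    ∃ c : ℕ × ℕ → ℕ, ProperOn μ.cells c ∧ (∀ x ∈ μ.cells, c x < κ Φ) ∧
      ∀ k, k ≤ κ Φ → P k ≤ (μ.cells.filter (fun x => c x < k)).card := by
  classical
  have hκmono : Monotone κ := monotone_nat_of_le_succ hκ
  set fg : ℕ → ℕ := fun k => Nat.findGreatest (fun φ => κ φ ≤ k) Φ with hfg
  have fg1 : ∀ k, κ (fg k) ≤ k := by
    intro k
    have h0 : κ 0 ≤ k := by rw [hκ0]; exact Nat.zero_le _
    exact Nat.findGreatest_spec (P := fun φ => κ φ ≤ k) (Nat.zero_le Φ) h0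
  have fg2 : ∀ k, fg k ≤ Φ := fun k => Nat.findGreatest_le Φ
  have fg3 : ∀ k φ, φ ≤ Φ → κ φ ≤ k → φ ≤ fg k := fun k φ h1 h2 => Nat.le_findGreatest h1 h2
  have fgmono : ∀ k, fg k ≤ fg (k + 1) := fun k => fg3 (k + 1) (fg k) (fg2 k)
    ((fg1 k).trans (Nat.le_succ k))
  set U : ℕ → Finset (ℕ × ℕ) := fun k =>
    (univ.filter (fun e : μ.cells => ψ e < fg k)).image Subtype.val with hU
  have hUmono : ∀ t, U t ⊆ U (t + 1) := by
    intro t
    apply Finset.image_subset_image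
    intro e he
    rw [Finset.mem_filter] at he ⊢
    exact ⟨he.1, lt_of_lt_of_le he.2 (fgmono t)⟩
  have hUcard : ∀ k, (U k).card = (univ.filter (fun e : μ.cells => ψ e < fg k)).card := fun k =>
    Finset.card_image_of_injective _ Subtype.val_injective
  have hUrow : ∀ k i, ((U k).filter (fun x => x.1 = i)).card =
      (univ.filter (fun v : μ.cells => v.1.1 = i ∧ ψ v < fg k)).card := by
    intro k i
    rw [← Finset.card_image_of_injective (univ.filter (fun v : μ.cells => v.1.1 = i ∧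
      ψ v < fg k)) Subtype.val_injective]
    congr 1
    ext x
    simp only [hU, Finset.mem_filter, Finset.mem_image, Finset.mem_univ, true_and]
    constructor
    · rintro ⟨⟨e, h1, rfl⟩, h2⟩
      exact ⟨e, ⟨h2, h1⟩, rfl⟩
    · rintro ⟨e, ⟨h1, h2⟩, rfl⟩
      exact ⟨⟨e, h2, rfl⟩, h1⟩
  have hUcol : ∀ k i, ((U k).filter (fun x => x.2 = i)).card =
      (univ.filter (fun v : μ.cells => v.1.2 = i ∧ ψ v < fg k)).card := by
    intro k i
    rw [← Finset.card_image_of_injective (univ.filter (fun v : μ.cells => v.1.2 = i ∧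
      ψ v < fg k)) Subtype.val_injective]
    congr 1
    ext x
    simp only [hU, Finset.mem_filter, Finset.mem_image, Finset.mem_univ, true_and]
    constructor
    · rintro ⟨⟨e, h1, rfl⟩, h2⟩
      exact ⟨e, ⟨h2, h1⟩, rfl⟩
    · rintro ⟨e, ⟨h1, h2⟩, rfl⟩
      exact ⟨⟨e, h2, rfl⟩, h1⟩
  obtain ⟨c1, h1, h2, h3⟩ := chain_col U hUmono 0
    (fun t i => by rw [hUrow]; exact (hrow i (fg t) (fg2 t)).trans (fg1 t))
    (fun t i => by rw [hUcol]; exact (hcol i (fg t) (fg2 t)).trans (fg1 t)) (κ Φ)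
  have hfull : U (κ Φ) = μ.cells := by
    ext x
    simp only [hU, Finset.mem_image, Finset.mem_filter, Finset.mem_univ, true_and]
    constructor
    · rintro ⟨e, _, rfl⟩
      exact e.2
    · intro hx
      exact ⟨⟨x, hx⟩, lt_of_lt_of_le (hψ _) (fg3 (κ Φ) Φ le_rfl le_rfl), rfl⟩
  rw [hfull] at h1 h2 h3
  obtain ⟨c3, h7, h8, h9, h10⟩ := sort_col μ.cells c1 h1 (κ Φ + 0) h2
  have hPK : ∀ φ, φ ≤ Φ → P (κ φ) ≤ (μ.cells.filter (fun x => c3 x < κ φ)).card := by
    intro φ hφ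
    refine (htot φ hφ).trans ?_
    refine le_trans ?_ ((h3 (κ φ) (hκmono hφ)).trans (h9 (κ φ + 0)))
    rw [hUcard]
    apply Finset.card_le_card
    intro e he
    rw [Finset.mem_filter] at he ⊢
    exact ⟨he.1, lt_of_lt_of_le he.2 (fg3 (κ φ) φ hφ le_rfl)⟩
  refine ⟨c3, h7, h8, ?_⟩
  intro k hk
  rcases hk.eq_or_lt with hk' | hk'
  · rw [hk']
    exact hPK Φ le_rfl
  · obtain ⟨φ1, φ2, σ, d, a1, a2, a3, a4, a5, a6, a7⟩ := hlin k hk'
    have b1 := hPK φ1 a1
    have b2 := hPK φ2 a2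
    rw [a5] at b1
    rw [a7] at b2
    rw [a6]
    generalize κ φ1 = k1 at *
    generalize κ φ2 = k2 at *
    obtain ⟨u, rfl⟩ := Nat.exists_eq_add_of_le a3
    obtain ⟨w, rfl⟩ := Nat.exists_eq_add_of_le a4
    rcases Nat.eq_zero_or_pos (u + w) with h0 | h0
    · have hu : u = 0 := by omega
      subst hu
      simpa using b1
    · have b3 := h10 k1 (k1 + u) (k1 + u + w) (by omega) (by omega)
      have e1 : k1 + u + w - (k1 + u) = w := by omega
      have e2 : k1 + u - k1 = u := by omega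
      have e3 : k1 + u + w - k1 = u + w := by omega
      rw [e1, e2, e3] at b3
      apply Nat.le_of_mul_le_mul_left _ h0
      refine le_trans ?_ b3
      calc (u + w) * ((k1 + u) * σ + d)
          = w * (k1 * σ + d) + u * ((k1 + u + w) * σ + d) := by ring
        _ ≤ _ := Nat.add_le_add (Nat.mul_le_mul_left w b1) (Nat.mul_le_mul_left u b2)

/-- the cells behind a corner of the dilated diagram -/
theorem far_dilate (μ : YoungDiagram) (K : ℕ) (hK : 0 < K) (a b : ℕ) :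
    ((dilate K μ).cells.filter (fun v => K * a ≤ v.1 ∧ K * b ≤ v.2)).card =
      K * K * ∑ i ∈ Ico a (μ.colLen 0), (μ.rowLen i - b) := by
  classical
  set m := μ.colLen 0 with hmdef
  set N := μ.rowLen 0 with hNdef
  set lam := μ.rowLen with hlam
  have hN : ∀ i, lam i ≤ N := fun i => μ.rowLen_anti 0 i (Nat.zero_le _)
  have hmem : ∀ R X, (R, X) ∈ dilate K μ → R < m * K ∧ X < K * lam (R / K) := by
    intro R X hRX
    have hX : X < K * lam (R / K) := by
      rw [hlam, ← rowLen_dilate K hK]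
      exact YoungDiagram.mem_iff_lt_rowLen.mp hRX
    refine ⟨?_, hX⟩
    rw [mem_dilate K hK] at hRX
    have h1 : (R / K, 0) ∈ μ := μ.up_left_mem le_rfl (Nat.zero_le _) hRX
    exact (Nat.div_lt_iff_lt_mul hK).mp (YoungDiagram.mem_iff_lt_colLen.mp h1)
  have hmemW : ∀ R X, (R, X) ∈ dilate K μ → X < N * K := by
    intro R X hRX
    have h1 := (hmem R X hRX).2
    have h2 : K * lam (R / K) ≤ K * N := Nat.mul_le_mul_left K (hN _)
    rw [mul_comm N K]
    omega
  rw [card_cells (dilate K μ) (fun R X => K * a ≤ R ∧ K * b ≤ X) (m * K) (N * K)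
    (fun R X h => (hmem R X h).1) hmemW]
  have e1 : ∀ R ∈ range (m * K), ∑ X ∈ range (N * K),
      (if X < (dilate K μ).rowLen R ∧ K * a ≤ R ∧ K * b ≤ X then 1 else 0) =
      if a ≤ R / K then K * (lam (R / K) - b) else 0 := by
    intro R _
    rw [rowLen_dilate K hK]
    have e2 : K * a ≤ R ↔ a ≤ R / K := by
      rw [Nat.le_div_iff_mul_le hK, mul_comm]
    by_cases hR : a ≤ R / K
    · rw [if_pos hR, ← Finset.card_filter]
      have e3 : (range (N * K)).filter (fun X => X < K * μ.rowLen (R / K) ∧ K * a ≤ R ∧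
          K * b ≤ X) = Ico (K * b) (K * lam (R / K)) := by
        ext X
        have h2 : K * lam (R / K) ≤ N * K := by
          rw [mul_comm N K]; exact Nat.mul_le_mul_left K (hN _)
        simp only [Finset.mem_filter, Finset.mem_range, Finset.mem_Ico, hlam] at h2 ⊢
        constructor
        · rintro ⟨_, h3, _, h4⟩; exact ⟨h4, h3⟩
        · rintro ⟨h4, h3⟩; exact ⟨by omega, h3, e2.mpr hR, h4⟩
      rw [e3, Nat.card_Ico, ← Nat.mul_sub]
    · rw [if_neg hR]
      apply Finset.sum_eq_zero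
      intro X _
      rw [if_neg]
      rintro ⟨_, h2, _⟩
      exact hR (e2.mp h2)
  rw [Finset.sum_congr rfl e1, sum_divmod m K hK
    (fun i _ => if a ≤ i then K * (lam i - b) else 0)]
  simp only [Finset.sum_const, Finset.card_range, smul_eq_mul]
  rw [← Finset.mul_sum, ← Finset.sum_filter]
  have e7 : (range m).filter (fun i => a ≤ i) = Ico a m := by
    ext i
    simp only [Finset.mem_filter, Finset.mem_range, Finset.mem_Ico]
    tauto
  rw [e7, ← Finset.mul_sum]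
  ring

end Pool.MP_d56194_co
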